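import Pool.Agent.H35.SignAvg

set_option autoImplicit false
set_option linter.unusedSectionVars false

/-!
Sequential conditioning: the probability that a running maximum over independent samples stays small
on average.
-/

namespace Pool.Agent.H35

open Finset MeasureTheory
open scoped ENNReal

variable {ι : Type} [Fintype ι] [DecidableEq ι] {G : Type} [MeasurableSpace G]

/-- The running maximum of `h` and of the functions `T (g i)`. -/
def runMax (T : G → (ι → Bool) → ℝ) :
    (N : ℕ) → ((ι → Bool) → ℝ) → (Fin N → G) → ((ι → Bool) → ℝ)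
  | 0, h, _ => h
  | N + 1, h, g => runMax T N (fun ω => max (h ω) (T (g 0) ω)) (Fin.tail g)

lemma le_runMax (T : G → (ι → Bool) → ℝ) (N : ℕ) (h : (ι → Bool) → ℝ) (g : Fin N → G)
    (ω : ι → Bool) : h ω ≤ runMax T N h g ω := by
  induction N generalizing h with
  | zero => exact le_rfl
  | succ N ih =>
    exact (le_max_left (h ω) (T (g 0) ω)).trans (ih (fun ω => max (h ω) (T (g 0) ω)) (Fin.tail g))

lemma runMax_le (T : G → (ι → Bool) → ℝ) (N : ℕ) (h : (ι → Bool) → ℝ) (g : Fin N → G)
    (ω : ι → Bool) (c : ℝ) (hh : h ω ≤ c) (hg : ∀ i, T (g i) ω ≤ c) : runMax T N h g ω ≤ c := by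
  induction N generalizing h with
  | zero => exact hh
  | succ N ih => exact ih _ (Fin.tail g) (max_le hh (hg 0)) (fun i => hg i.succ)

lemma measurable_avg : Measurable (avg : ((ι → Bool) → ℝ) → ℝ) := by
  unfold avg
  fun_prop

lemma measurable_runMax (T : G → (ι → Bool) → ℝ) (hT : ∀ ω, Measurable (fun g => T g ω)) (N : ℕ) :
    Measurable (fun p : ((ι → Bool) → ℝ) × (Fin N → G) => runMax T N p.1 p.2) := by
  induction N with
  | zero => exact measurable_fst
  | succ N ih =>
    have h1 : Measurable (fun p : ((ι → Bool) → ℝ) × (Fin (N + 1) → G) =>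
        ((fun ω => max (p.1 ω) (T (p.2 0) ω), Fin.tail p.2) :
          ((ι → Bool) → ℝ) × (Fin N → G))) := by
      apply Measurable.prodMk
      · apply measurable_pi_lambda
        intro ω
        apply Measurable.max
        · exact (measurable_pi_apply ω).comp measurable_fst
        · exact (hT ω).comp ((measurable_pi_apply 0).comp measurable_snd)
      · apply measurable_pi_lambda
        intro i
        exact (measurable_pi_apply _).comp measurable_snd
    exact ih.comp h1

/-- The basic recursive estimate. -/
theorem seq_bound (μ : Measure G) [IsProbabilityMeasure μ] (T : G → (ι → Bool) → ℝ)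
    (hT : ∀ ω, Measurable (fun g => T g ω)) (a θ : ℝ) (hθ : 0 ≤ θ) (β : ℝ≥0∞) (hβ : β ≤ 1)
    (hstep : ∀ h : (ι → Bool) → ℝ, avg h ≤ a →
      μ {g | avg (fun ε => max (T g ε - h ε) 0) ≤ θ} ≤ β) :
    ∀ (N r : ℕ) (h : (ι → Bool) → ℝ), a - avg h ≤ r * θ →
      β ^ r * (Measure.pi (fun _ : Fin N => μ)) {g | avg (runMax T N h g) ≤ a} ≤ (2 * β) ^ N := by
  intro N
  induction N with
  | zero =>
    intro r h _
    calc β ^ r * (Measure.pi (fun _ : Fin 0 => μ)) {g | avg (runMax T 0 h g) ≤ a}
        ≤ 1 * 1 := by
          gcongr
          · exact pow_le_one' hβ r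
          · exact prob_le_one
      _ = (2 * β) ^ 0 := by simp
  | succ N ih =>
    intro r h hr
    -- reduce to a product space
    set S' : Set (G × (Fin N → G)) :=
      {p | avg (runMax T N (fun ω => max (h ω) (T p.1 ω)) p.2) ≤ a} with hS'
    have hmS' : MeasurableSet S' := by
      apply measurableSet_le _ measurable_const
      apply measurable_avg.comp
      have h1 : Measurable (fun p : G × (Fin N → G) =>
          ((fun ω => max (h ω) (T p.1 ω), p.2) : ((ι → Bool) → ℝ) × (Fin N → G))) := by
        apply Measurable.prodMk
        · apply measurable_pi_lambda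
          intro ω
          exact measurable_const.max ((hT ω).comp measurable_fst)
        · exact measurable_snd
      exact (measurable_runMax T hT N).comp h1
    have e1 : (Measure.pi (fun _ : Fin (N + 1) => μ)) {g | avg (runMax T (N + 1) h g) ≤ a}
        = (μ.prod (Measure.pi fun _ : Fin N => μ)) S' := by
      rw [← (measurePreserving_piFinSuccAbove (fun _ : Fin (N + 1) => μ) 0).measure_preimage
        hmS'.nullMeasurableSet]
      rfl
    rw [e1, Measure.prod_apply hmS']
    by_cases hha : avg h ≤ a
    swap
    · have : ∀ g0 : G, (Measure.pi (fun _ : Fin N => μ)) (Prod.mk g0 ⁻¹' S') = 0 := by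
        intro g0
        have : Prod.mk g0 ⁻¹' S' = ∅ := by
          ext g
          simp only [hS', Set.mem_preimage, Set.mem_ofPred_eq, Set.mem_empty_iff_false, iff_false,
            not_le]
          refine (not_le.mp hha).trans_le (avg_mono fun ω => ?_)
          exact (le_max_left (h ω) (T g0 ω)).trans
            (le_runMax T N (fun ω => max (h ω) (T g0 ω)) g ω)
        rw [this, measure_empty]
      simp [this]
    set A : Set G := {g | avg (fun ε => max (T g ε - h ε) 0) ≤ θ} with hA
    have hmA : MeasurableSet A := by
      apply measurableSet_le _ measurable_const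
      apply measurable_avg.comp
      apply measurable_pi_lambda
      intro ω
      exact ((hT ω).sub measurable_const).max measurable_const
    have hinc : ∀ g0 : G, avg (fun ω => max (h ω) (T g0 ω))
        = avg h + avg (fun ε => max (T g0 ε - h ε) 0) := by
      intro g0
      rw [← avg_add]
      congr 1
      funext ε
      rcases le_total (h ε) (T g0 ε) with h1 | h1
      · rw [max_eq_right h1, max_eq_left (by linarith)]; ring
      · rw [max_eq_left h1, max_eq_right (by linarith)]; ring
    have hfib : ∀ g0 : G, Prod.mk g0 ⁻¹' S' =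
        {g | avg (runMax T N (fun ω => max (h ω) (T g0 ω)) g) ≤ a} := fun g0 => rfl
    have hpt : ∀ g0 : G, β ^ r * (Measure.pi (fun _ : Fin N => μ)) (Prod.mk g0 ⁻¹' S')
        ≤ A.indicator (fun _ => (2 * β) ^ N) g0 + β * (2 * β) ^ N := by
      intro g0
      by_cases hg : g0 ∈ A
      · rw [Set.indicator_of_mem hg, hfib]
        refine le_trans (ih r (fun ω => max (h ω) (T g0 ω)) ?_) le_self_add
        rw [hinc]
        have : 0 ≤ avg (fun ε => max (T g0 ε - h ε) 0) := avg_nonneg fun ε => le_max_right _ _
        linarith
      · rw [Set.indicator_of_notMem hg, zero_add]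
        have hg' : θ < avg (fun ε => max (T g0 ε - h ε) 0) := not_le.mp hg
        cases r with
        | zero =>
          have : Prod.mk g0 ⁻¹' S' = ∅ := by
            ext g
            simp only [hS', Set.mem_preimage, Set.mem_ofPred_eq, Set.mem_empty_iff_false, iff_false,
              not_le]
            have h1 : a < avg (fun ω => max (h ω) (T g0 ω)) := by
              rw [hinc]
              simp only [Nat.cast_zero, zero_mul] at hr
              linarith
            exact h1.trans_le (avg_mono fun ω => le_runMax T N (fun ω => max (h ω) (T g0 ω)) g ω)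
          rw [this, measure_empty, mul_zero]
          exact bot_le
        | succ r =>
          rw [pow_succ', mul_assoc, hfib]
          refine mul_le_mul' le_rfl (ih r (fun ω => max (h ω) (T g0 ω)) ?_)
          rw [hinc]
          push_cast at hr
          linarith
    calc β ^ r * ∫⁻ g0, (Measure.pi (fun _ : Fin N => μ)) (Prod.mk g0 ⁻¹' S') ∂μ
        = ∫⁻ g0, β ^ r * (Measure.pi (fun _ : Fin N => μ)) (Prod.mk g0 ⁻¹' S') ∂μ := by
          rw [lintegral_const_mul' _ _ (ENNReal.pow_ne_top (ne_top_of_le_ne_top ENNReal.one_ne_top hβ))]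
      _ ≤ ∫⁻ g0, (A.indicator (fun _ => (2 * β) ^ N) g0 + β * (2 * β) ^ N) ∂μ :=
          lintegral_mono hpt
      _ = (2 * β) ^ N * μ A + β * (2 * β) ^ N := by
          rw [lintegral_add_right _ measurable_const, lintegral_indicator hmA, lintegral_const,
            lintegral_const]
          simp
      _ ≤ (2 * β) ^ N * β + β * (2 * β) ^ N := by
          gcongr
          exact hstep h hha
      _ = (2 * β) ^ (N + 1) := by ring

end Pool.Agent.H35
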