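import Pool.Agent.H35.VolLemma
import Pool.Agent.H35.Sequential

set_option autoImplicit false
set_option linter.unusedSectionVars false

/-!
The uniform measure on the centred unit cube, and the two estimates for random vectors.
-/

namespace Pool.Agent.H35

open Finset MeasureTheory
open scoped ENNReal

/-- Uniform measure on `[-1/2, 1/2]`. -/
noncomputable def nu : Measure ℝ := volume.restrict (Set.Icc (-1/2) (1/2))

instance : IsProbabilityMeasure nu := by
  constructor
  rw [nu, Measure.restrict_apply_univ, Real.volume_Icc]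
  norm_num

/-- Uniform measure on the centred unit cube. -/
noncomputable def muc (n : ℕ) : Measure (Fin n → ℝ) := Measure.pi (fun _ => nu)

instance (n : ℕ) : IsProbabilityMeasure (muc n) := by
  unfold muc; infer_instance

/-- The centred unit cube. -/
def cube (n : ℕ) : Set (Fin n → ℝ) := Set.pi Set.univ (fun _ => Set.Icc (-1/2) (1/2))

lemma muc_eq (n : ℕ) : muc n = volume.restrict (cube n) := by
  unfold muc cube nu
  rw [volume_pi, Measure.restrict_pi_pi]

lemma measurableSet_cube (n : ℕ) : MeasurableSet (cube n) :=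
  MeasurableSet.univ_pi fun _ => measurableSet_Icc

lemma muc_le (n : ℕ) (s : Set (Fin n → ℝ)) : muc n s ≤ volume s := by
  rw [muc_eq]
  exact Measure.restrict_apply_le _ _

lemma abs_le_of_mem_cube {n : ℕ} {x : Fin n → ℝ} (hx : x ∈ cube n) (j : Fin n) : |x j| ≤ 1/2 := by
  have := hx j (Set.mem_univ _)
  rw [abs_le]
  constructor <;> linarith [this.1, this.2]

lemma ae_mem_cube (n : ℕ) : ∀ᵐ x ∂(muc n), x ∈ cube n := by
  rw [muc_eq]
  exact ae_restrict_mem (measurableSet_cube n)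

/-- `g ↦ (ε ↦ ⟨U ε, g⟩)`. -/
def TU {n : ℕ} (U : Matrix (Fin n) (Fin n) ℝ) (g : Fin n → ℝ) : (Fin n → Bool) → ℝ :=
  pair (Matrix.mulVec U.transpose g)

lemma measurable_TU {n : ℕ} (U : Matrix (Fin n) (Fin n) ℝ) (ω : Fin n → Bool) :
    Measurable (fun g => TU U g ω) := by
  unfold TU pair Matrix.mulVec dotProduct
  fun_prop

lemma TU_slack {n : ℕ} (U : Matrix (Fin n) (Fin n) ℝ) (hU : |U.det| = 1)
    (h : (Fin n → Bool) → ℝ) (θ : ℝ) :
    muc n {g | avg (fun ε => max (TU U g ε - h ε) 0) ≤ θ} ≤ volume (slack h θ) := by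
  refine (muc_le n _).trans ?_
  have e : {g | avg (fun ε => max (TU U g ε - h ε) 0) ≤ θ}
      = (Matrix.toLin' U.transpose) ⁻¹' slack h θ := by
    ext g
    simp only [Set.mem_ofPred_eq, Set.mem_preimage, slack, TU, Matrix.toLin'_apply]
  have hdet : LinearMap.det (Matrix.toLin' U.transpose) = U.det := by
    rw [LinearMap.det_toLin', Matrix.det_transpose]
  rw [e, Measure.addHaar_preimage_linearMap]
  · rw [hdet, abs_inv, hU]
    simp
  · rw [hdet]
    intro h0
    rw [h0] at hU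
    simp at hU

/-- The block volume bound for the parameters used below. -/
lemma slack_bound (m : ℕ) (hm : 1 ≤ m) (c : ℝ) (hc : 0 < c)
    (h : (Fin (m * 4 ^ m) → Bool) → ℝ) (hh : avg h ≤ c * m * 2 ^ m) :
    volume (slack h (c * m)) ≤ ENNReal.ofReal ((64 * c) ^ (m * 4 ^ m)) := by
  have hm' : (0 : ℝ) < m := by exact_mod_cast hm
  set lam : ℝ := 2 * c / 2 ^ m with hlam
  have hlam0 : 0 < lam := by positivity
  refine (volBound_blocks (4 ^ m) m lam hlam0 h (c * m)).trans ?_
  apply ENNReal.ofReal_le_ofReal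
  rw [Fintype.card_fin]
  have h1 : √(3 * ((4 ^ m : ℕ) : ℝ)) = √3 * 2 ^ m := by
    rw [Real.sqrt_mul (by norm_num)]
    congr 1
    push_cast
    rw [show (4 : ℝ) = 2 ^ 2 by norm_num, ← pow_mul, mul_comm, pow_mul]
    rw [Real.sqrt_sq (by positivity)]
  have h2 : 4 * lam * √(3 * ((4 ^ m : ℕ) : ℝ)) = 8 * √3 * c := by
    rw [h1, hlam]
    field_simp
    ring
  rw [h2]
  have h3 : (avg h + 2 ^ m * (c * m)) / lam ≤ ((m * 4 ^ m : ℕ) : ℝ) := by
    rw [div_le_iff₀ hlam0, hlam]
    have : ((m * 4 ^ m : ℕ) : ℝ) * (2 * c / 2 ^ m) = 2 * (c * m * 2 ^ m) := by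
      push_cast
      rw [show (4 : ℝ) = 2 * 2 by norm_num, mul_pow]
      field_simp
    rw [this]
    linarith
  have h4 : Real.exp ((avg h + 2 ^ m * (c * m)) / lam) ≤ 3 ^ (m * 4 ^ m) := by
    calc Real.exp ((avg h + 2 ^ m * (c * m)) / lam) ≤ Real.exp ((m * 4 ^ m : ℕ) : ℝ) :=
          Real.exp_le_exp.mpr h3
      _ = (Real.exp 1) ^ (m * 4 ^ m) := by
          rw [← Real.exp_nat_mul, mul_one]
      _ ≤ 3 ^ (m * 4 ^ m) := by
          gcongr
          exact Real.exp_one_lt_three.le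
  have h5 : √3 ≤ (8 / 3 : ℝ) := by
    rw [Real.sqrt_le_left (by norm_num)]
    norm_num
  calc (8 * √3 * c) ^ (m * 4 ^ m) * Real.exp ((avg h + 2 ^ m * (c * m)) / lam)
      ≤ (8 * √3 * c) ^ (m * 4 ^ m) * 3 ^ (m * 4 ^ m) := by gcongr
    _ = (8 * √3 * c * 3) ^ (m * 4 ^ m) := (mul_pow _ _ _).symm
    _ ≤ (64 * c) ^ (m * 4 ^ m) := by
        apply pow_le_pow_left₀ (by positivity)
        nlinarith

/-- The block volume bound for the parameters used below. -/
lemma slack_bound' (m n : ℕ) (hn : n = m * 4 ^ m) (hm : 1 ≤ m) (c : ℝ) (hc : 0 < c)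
    (h : (Fin n → Bool) → ℝ) (hh : avg h ≤ c * m * 2 ^ m) :
    volume (slack h (c * m)) ≤ ENNReal.ofReal ((64 * c) ^ n) := by
  subst hn
  exact slack_bound m hm c hc h hh

/-- The probability that a fixed matrix is bad. -/
lemma bad_prob (m n N' : ℕ) (hn : n = m * 4 ^ m) (hN' : N' = n * m) (hm : 1 ≤ m)
    (c : ℝ) (hc : 0 < c) (hc1 : 64 * c ≤ 1)
    (U : Matrix (Fin n) (Fin n) ℝ) (hU : |U.det| = 1) :
    (Measure.pi (fun _ : Fin (2 * N') => muc n))
      {g | avg (runMax (TU U) (2 * N') (fun _ => 0) g) ≤ c * m * 2 ^ m} ≤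
    ENNReal.ofReal (2 ^ (2 * N') * (64 * c) ^ (n * N')) := by
  have hm' : (0 : ℝ) < m := by exact_mod_cast hm
  set β : ℝ≥0∞ := ENNReal.ofReal ((64 * c) ^ n) with hβ
  have hβ1 : β ≤ 1 := by
    rw [hβ, ← ENNReal.ofReal_one]
    exact ENNReal.ofReal_le_ofReal (pow_le_one₀ (by positivity) hc1)
  have hβ0 : β ≠ 0 := by
    rw [hβ, ne_eq, ENNReal.ofReal_eq_zero, not_le]
    positivity
  have hβt : β ≠ ∞ := ne_top_of_le_ne_top ENNReal.one_ne_top hβ1
  have h1 := seq_bound (muc n) (TU U) (measurable_TU U) (c * m * 2 ^ m) (c * m) (by positivity) β hβ1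
    (fun h hh => (TU_slack U hU h _).trans (slack_bound' m n hn hm c hc h hh)) (2 * N') (2 ^ m)
    (fun _ => 0) (by rw [avg_const]; push_cast; linarith)
  have hr : 2 ^ m ≤ N' := by
    rw [hN', hn]
    calc 2 ^ m ≤ 4 ^ m := Nat.pow_le_pow_left (by norm_num) m
      _ = 1 * 4 ^ m * 1 := by ring
      _ ≤ m * 4 ^ m * m := by gcongr
  set P := (Measure.pi (fun _ : Fin (2 * N') => muc n))
      {g | avg (runMax (TU U) (2 * N') (fun _ => 0) g) ≤ c * m * 2 ^ m}
  have h2 : β ^ (2 ^ m) * P ≤ β ^ (2 ^ m) * (2 ^ (2 * N') * β ^ (2 * N' - 2 ^ m)) := by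
    refine h1.trans (le_of_eq ?_)
    rw [mul_pow]
    calc 2 ^ (2 * N') * β ^ (2 * N') = 2 ^ (2 * N') * β ^ (2 ^ m + (2 * N' - 2 ^ m)) := by
          congr 2; omega
      _ = _ := by rw [pow_add]; ring
  have h3 : P ≤ 2 ^ (2 * N') * β ^ (2 * N' - 2 ^ m) :=
    (ENNReal.mul_le_mul_iff_right (pow_ne_zero _ hβ0) (ENNReal.pow_ne_top hβt)).mp h2
  refine h3.trans ?_
  calc 2 ^ (2 * N') * β ^ (2 * N' - 2 ^ m) ≤ 2 ^ (2 * N') * β ^ N' := by
        gcongr 2 ^ (2 * N') * ?_
        exact pow_le_pow_right_of_le_one' hβ1 (by omega)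
    _ = ENNReal.ofReal (2 ^ (2 * N') * (64 * c) ^ (n * N')) := by
        have hy : 0 ≤ (64 * c) ^ n := by positivity
        rw [hβ, pow_mul (64 * c) n N', ENNReal.ofReal_mul (by positivity), ENNReal.ofReal_pow hy,
          ENNReal.ofReal_pow (by norm_num : (0:ℝ) ≤ 2), ENNReal.ofReal_ofNat]

/-! ### The volume of the dual body -/

lemma measurePreserving_sign (b : Bool) : MeasurePreserving (fun t : ℝ => sg b * t) nu nu := by
  cases b
  · have h1 : MeasurePreserving (fun t : ℝ => -t) (volume : Measure ℝ) volume :=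
      Measure.measurePreserving_neg volume
    have h2 := h1.restrict_preimage (s := Set.Icc (-1/2 : ℝ) (1/2)) measurableSet_Icc
    have e : (fun t : ℝ => -t) ⁻¹' Set.Icc (-1/2 : ℝ) (1/2) = Set.Icc (-1/2 : ℝ) (1/2) := by
      ext t
      simp only [Set.mem_preimage, Set.mem_Icc]
      constructor <;> intro h <;> constructor <;> linarith [h.1, h.2]
    rw [e] at h2
    simpa [nu] using h2
  · have h : (fun t : ℝ => sg true * t) = id := by
      funext t; simp
    rw [h]
    exact MeasurePreserving.id nu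

lemma measurePreserving_flip (n : ℕ) (ε : Fin n → Bool) :
    MeasurePreserving (fun g : Fin n → ℝ => fun i => sg (ε i) * g i) (muc n) (muc n) :=
  measurePreserving_pi (fun _ => nu) (fun _ => nu) (fun i => measurePreserving_sign (ε i))

lemma lintegral_finset_avg (n : ℕ) (F : (Fin n → Bool) → (Fin n → ℝ) → ℝ)
    (hF : ∀ ε, Measurable (F ε)) (hF0 : ∀ ε g, 0 ≤ F ε g) (I : ℝ≥0∞)
    (hI : ∀ ε, ∫⁻ g, ENNReal.ofReal (F ε g) ∂(muc n) = I) :
    ∫⁻ g, ENNReal.ofReal (avg (fun ε => F ε g)) ∂(muc n) = I := by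
  unfold avg
  have h2 : (0 : ℝ) < 2 ^ Fintype.card (Fin n) := by positivity
  have e : ∀ g, ENNReal.ofReal ((∑ ε, F ε g) / 2 ^ Fintype.card (Fin n))
      = (ENNReal.ofReal (2 ^ Fintype.card (Fin n)))⁻¹ * ∑ ε, ENNReal.ofReal (F ε g) := by
    intro g
    rw [ENNReal.ofReal_div_of_pos h2, ENNReal.ofReal_sum_of_nonneg (fun ε _ => hF0 ε g),
      ENNReal.div_eq_inv_mul]
  simp only [e]
  rw [lintegral_const_mul' _ _ (by simp), lintegral_finsetSum _ (fun ε _ =>
    (hF ε).ennreal_ofReal)]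
  simp only [hI]
  rw [sum_const, card_univ, Fintype.card_pi]
  simp only [Fintype.card_bool, prod_const, card_univ, nsmul_eq_mul, Fintype.card_fin]
  rw [ENNReal.ofReal_pow (by norm_num), ENNReal.ofReal_ofNat]
  push_cast
  rw [← mul_assoc, ENNReal.inv_mul_cancel (by simp) (by simp), one_mul]

/-- Fourth moment of a linear functional on the cube. -/
lemma fourth_moment (n : ℕ) (x : Fin n → ℝ) (hx : x ∈ cube n) :
    ∫⁻ g, ENNReal.ofReal ((∑ j, x j * g j) ^ 4) ∂(muc n) ≤ ENNReal.ofReal (3 * (n / 16) ^ 2) := by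
  have key : ∫⁻ g, ENNReal.ofReal (avg (fun ε : Fin n → Bool =>
      (∑ j, x j * (sg (ε j) * g j)) ^ 4)) ∂(muc n)
      = ∫⁻ g, ENNReal.ofReal ((∑ j, x j * g j) ^ 4) ∂(muc n) := by
    apply lintegral_finset_avg
    · intro ε; fun_prop
    · intro ε g; positivity
    · intro ε
      exact (measurePreserving_flip n ε).lintegral_comp
        (f := fun g => ENNReal.ofReal ((∑ j, x j * g j) ^ 4)) (by fun_prop)
  rw [← key]
  calc ∫⁻ g, ENNReal.ofReal (avg (fun ε : Fin n → Bool =>
      (∑ j, x j * (sg (ε j) * g j)) ^ 4)) ∂(muc n)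
      ≤ ∫⁻ _g, ENNReal.ofReal (3 * (n / 16) ^ 2) ∂(muc n) := by
        apply lintegral_mono_ae
        filter_upwards [ae_mem_cube n] with g hg
        apply ENNReal.ofReal_le_ofReal
        have e : (fun ε : Fin n → Bool => (∑ j, x j * (sg (ε j) * g j)) ^ 4)
            = fun ε => pair (fun j => x j * g j) ε ^ 4 := by
          funext ε
          unfold pair
          congr 1
          exact sum_congr rfl fun j _ => by ring
        rw [e]
        refine (avg_pair_fourth _).trans ?_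
        have hs : ∑ j, (x j * g j) ^ 2 ≤ (n : ℝ) / 16 := by
          calc ∑ j, (x j * g j) ^ 2 ≤ ∑ _j : Fin n, (1 / 16 : ℝ) := by
                apply sum_le_sum
                intro j _
                have h1 := abs_le_of_mem_cube hx j
                have h2 := abs_le_of_mem_cube hg j
                have h3 : |x j * g j| ≤ 1 / 4 := by
                  rw [abs_mul]
                  have := abs_nonneg (x j)
                  have := abs_nonneg (g j)
                  nlinarith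
                rw [← sq_abs]
                have := abs_nonneg (x j * g j)
                nlinarith
            _ = (n : ℝ) / 16 := by simp; ring
        have hs0 : 0 ≤ ∑ j, (x j * g j) ^ 2 := sum_nonneg fun j _ => sq_nonneg _
        gcongr
    _ = ENNReal.ofReal (3 * (n / 16) ^ 2) := by simp

/-- Vectors having small inner product with all `g i`. -/
def Kset {n N : ℕ} (s : ℝ) (g : Fin N → Fin n → ℝ) : Set (Fin n → ℝ) :=
  {x | ∀ i, |∑ j, x j * g i j| ≤ s}

lemma isClosed_Kset_prod {n N : ℕ} (s : ℝ) :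
    IsClosed {p : (Fin N → Fin n → ℝ) × (Fin n → ℝ) | p.2 ∈ Kset s p.1} := by
  simp only [Kset, Set.mem_ofPred_eq]
  rw [Set.ofPred_forall]
  apply isClosed_iInter
  intro i
  apply isClosed_le
  · fun_prop
  · fun_prop

/-- The mean volume of the body cut out by random vectors. -/
lemma mean_volume (m n N' : ℕ) (hn : 1 ≤ n) (hm : 1 ≤ m) (hN' : N' = n * m) (s : ℝ)
    (hs : s ^ 4 = m * n ^ 2) (hs0 : 0 < s) :
    ENNReal.ofReal ((1 / 4) ^ n) ≤
      ∫⁻ g, muc n (Kset s g) ∂(Measure.pi (fun _ : Fin (2 * N') => muc n)) := by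
  have hm' : (1 : ℝ) ≤ m := by exact_mod_cast hm
  have hn' : (1 : ℝ) ≤ n := by exact_mod_cast hn
  set PP := Measure.pi (fun _ : Fin (2 * N') => muc n) with hPP
  have hmeas := (isClosed_Kset_prod (n := n) (N := 2 * N') s).measurableSet
  have e1 : ∫⁻ g, muc n (Kset s g) ∂PP = (PP.prod (muc n))
      {p : (Fin (2 * N') → Fin n → ℝ) × (Fin n → ℝ) | p.2 ∈ Kset s p.1} := by
    rw [Measure.prod_apply hmeas]
    rfl
  have e2 : (PP.prod (muc n))
      {p : (Fin (2 * N') → Fin n → ℝ) × (Fin n → ℝ) | p.2 ∈ Kset s p.1}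
      = ∫⁻ x, PP {g | x ∈ Kset s g} ∂(muc n) := by
    rw [Measure.prod_apply_symm hmeas]
    rfl
  rw [e1, e2]
  have hpt : ∀ᵐ x ∂(muc n), ENNReal.ofReal ((1 / 4) ^ n) ≤ PP {g | x ∈ Kset s g} := by
    filter_upwards [ae_mem_cube n] with x hx
    -- the one-vector probability
    set E : Set (Fin n → ℝ) := {g | |∑ j, x j * g j| ≤ s} with hE
    have hEm : MeasurableSet E := by
      apply IsClosed.measurableSet
      exact isClosed_le (by fun_prop) (by fun_prop)
    have hprod : PP {g | x ∈ Kset s g} = (muc n E) ^ (2 * N') := by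
      have : {g : Fin (2 * N') → Fin n → ℝ | x ∈ Kset s g} = Set.pi Set.univ (fun _ => E) := by
        ext g
        simp [Kset, hE]
      rw [this, hPP, Measure.pi_pi]
      simp
    rw [hprod]
    have hmf : Measurable (fun g : Fin n → ℝ => ENNReal.ofReal ((∑ j, x j * g j) ^ 4)) := by
      fun_prop
    have hbad : muc n Eᶜ ≤ ENNReal.ofReal (1 / (2 * m)) := by
      have hmk : ENNReal.ofReal (s ^ 4) * muc n {g | ENNReal.ofReal (s ^ 4) ≤
          ENNReal.ofReal ((∑ j, x j * g j) ^ 4)} ≤ ENNReal.ofReal (3 * (n / 16) ^ 2) :=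
        (mul_meas_ge_le_lintegral₀ hmf.aemeasurable _).trans (fourth_moment n x hx)
      have hsub : Eᶜ ⊆ {g | ENNReal.ofReal (s ^ 4) ≤ ENNReal.ofReal ((∑ j, x j * g j) ^ 4)} := by
        intro g hg
        simp only [hE, Set.mem_compl_iff, Set.mem_ofPred_eq, not_le] at hg ⊢
        apply ENNReal.ofReal_le_ofReal
        have : (∑ j, x j * g j) ^ 4 = |∑ j, x j * g j| ^ 4 := by
          rw [← abs_pow, abs_of_nonneg (by positivity)]
        rw [this]
        exact pow_le_pow_left₀ hs0.le hg.le 4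
      have h4 : 0 < s ^ 4 := by positivity
      have h5 : ENNReal.ofReal (s ^ 4) * muc n Eᶜ ≤ ENNReal.ofReal (3 * (n / 16) ^ 2) :=
        (mul_le_mul' le_rfl (measure_mono hsub)).trans hmk
      have h6 : ENNReal.ofReal (3 * (n / 16) ^ 2) ≤
          ENNReal.ofReal (s ^ 4) * ENNReal.ofReal (1 / (2 * m)) := by
        rw [← ENNReal.ofReal_mul h4.le]
        apply ENNReal.ofReal_le_ofReal
        rw [hs]
        have : (m : ℝ) * n ^ 2 * (1 / (2 * m)) = n ^ 2 / 2 := by field_simp
        rw [this]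
        nlinarith [sq_nonneg (n : ℝ)]
      exact (ENNReal.mul_le_mul_iff_right (by simpa using h4) ENNReal.ofReal_ne_top).mp
        (h5.trans h6)
    have hgood : ENNReal.ofReal (1 - 1 / (2 * m)) ≤ muc n E := by
      have h1 : muc n E = 1 - muc n Eᶜ := by
        rw [← prob_compl_eq_one_sub hEm.compl, compl_compl]
      rw [h1, ENNReal.ofReal_sub _ (by positivity), ENNReal.ofReal_one]
      gcongr
    have hb : (1 / 2 : ℝ) ≤ (1 - 1 / (2 * m)) ^ m := by
      have h1 := one_add_mul_le_pow (a := (-(1 / (2 * m)) : ℝ)) (by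
        have : 1 / (2 * m) ≤ (1 : ℝ) := by
          rw [div_le_one (by positivity)]; linarith
        linarith) m
      have h2 : 1 + (m : ℝ) * (-(1 / (2 * m))) = 1 / 2 := by field_simp; ring
      rw [h2] at h1
      simpa [sub_eq_add_neg] using h1
    calc ENNReal.ofReal ((1 / 4) ^ n) ≤ ENNReal.ofReal ((1 - 1 / (2 * m)) ^ (2 * N')) := by
          apply ENNReal.ofReal_le_ofReal
          have : (1 - 1 / (2 * m) : ℝ) ^ (2 * N') = (((1 - 1 / (2 * m)) ^ m) ^ 2) ^ n := by
            rw [hN', ← pow_mul, ← pow_mul]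
            congr 1; ring
          rw [this]
          apply pow_le_pow_left₀ (by norm_num)
          nlinarith
      _ = (ENNReal.ofReal (1 - 1 / (2 * m))) ^ (2 * N') := by
          rw [ENNReal.ofReal_pow]
          have : 1 / (2 * m) ≤ (1 : ℝ) := by
            rw [div_le_one (by positivity)]; linarith
          linarith
      _ ≤ (muc n E) ^ (2 * N') := by gcongr
  calc ENNReal.ofReal ((1 / 4) ^ n) = ∫⁻ _x, ENNReal.ofReal ((1 / 4) ^ n) ∂(muc n) := by simp
    _ ≤ ∫⁻ x, PP {g | x ∈ Kset s g} ∂(muc n) := lintegral_mono_ae hpt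

end Pool.Agent.H35
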