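import Pool.Agent.H35.CubeMeasure

set_option autoImplicit false
set_option linter.unusedSectionVars false

/-!
Assembly: a normed space for which the product of Rademacher averages is large.
-/

namespace Pool.Agent.H35

open Finset MeasureTheory
open scoped ENNReal

variable {n N : ℕ}

/-- The norm attached to the vectors `g i`. -/
noncomputable def Ng (g : Fin N → Fin n → ℝ) (x : Fin n → ℝ) : ℝ :=
  max ‖x‖ ‖(fun i => ∑ j, x j * g i j : Fin N → ℝ)‖

lemma Ng_add_le (g : Fin N → Fin n → ℝ) (x y : Fin n → ℝ) : Ng g (x + y) ≤ Ng g x + Ng g y := by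
  unfold Ng
  apply max_le
  · exact (norm_add_le x y).trans (add_le_add (le_max_left _ _) (le_max_left _ _))
  · have e : (fun i => ∑ j, (x + y) j * g i j : Fin N → ℝ)
        = (fun i => ∑ j, x j * g i j) + (fun i => ∑ j, y j * g i j) := by
      funext i
      simp [add_mul, sum_add_distrib]
    rw [e]
    exact (norm_add_le _ _).trans (add_le_add (le_max_right _ _) (le_max_right _ _))

lemma Ng_smul (g : Fin N → Fin n → ℝ) (c : ℝ) (x : Fin n → ℝ) : Ng g (c • x) = |c| * Ng g x := by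
  unfold Ng
  have e : (fun i => ∑ j, (c • x) j * g i j : Fin N → ℝ) = c • (fun i => ∑ j, x j * g i j) := by
    funext i
    simp only [Pi.smul_apply, smul_eq_mul, mul_sum, mul_assoc]
  rw [e, norm_smul, norm_smul, Real.norm_eq_abs, mul_max_of_nonneg _ _ (abs_nonneg c)]

lemma Ng_nonneg (g : Fin N → Fin n → ℝ) (x : Fin n → ℝ) : 0 ≤ Ng g x :=
  (norm_nonneg x).trans (le_max_left _ _)

lemma abs_coord_le_Ng (g : Fin N → Fin n → ℝ) (x : Fin n → ℝ) (j : Fin n) : |x j| ≤ Ng g x :=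
  (norm_le_pi_norm x j).trans (le_max_left _ _)

lemma abs_inner_le_Ng (g : Fin N → Fin n → ℝ) (x : Fin n → ℝ) (i : Fin N) :
    |∑ j, x j * g i j| ≤ Ng g x :=
  (norm_le_pi_norm (fun i => ∑ j, x j * g i j : Fin N → ℝ) i).trans (le_max_right _ _)

lemma Ng_le (g : Fin N → Fin n → ℝ) (x : Fin n → ℝ) (c : ℝ) (hc : 0 ≤ c) (h1 : ∀ j, |x j| ≤ c)
    (h2 : ∀ i, |∑ j, x j * g i j| ≤ c) : Ng g x ≤ c := by
  unfold Ng
  apply max_le
  · exact (pi_norm_le_iff_of_nonneg hc).mpr h1
  · exact (pi_norm_le_iff_of_nonneg hc).mpr h2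

/-- `U` applied to a sign vector. -/
def Usg (U : Matrix (Fin n) (Fin n) ℝ) (ε : Fin n → Bool) : Fin n → ℝ :=
  fun j => ∑ i, U j i * sg (ε i)

lemma TU_eq (U : Matrix (Fin n) (Fin n) ℝ) (g : Fin n → ℝ) (ε : Fin n → Bool) :
    TU U g ε = ∑ j, Usg U ε j * g j := by
  unfold TU pair Usg Matrix.mulVec dotProduct
  simp only [Matrix.transpose_apply, mul_sum, sum_mul]
  rw [sum_comm]
  exact sum_congr rfl fun j _ => sum_congr rfl fun i _ => by ring

lemma runMax_le_Ng (U : Matrix (Fin n) (Fin n) ℝ) (g : Fin N → Fin n → ℝ) (ε : Fin n → Bool) :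
    runMax (TU U) N (fun _ => 0) g ε ≤ Ng g (Usg U ε) := by
  apply runMax_le
  · exact Ng_nonneg _ _
  · intro i
    rw [TU_eq]
    exact (le_abs_self _).trans (abs_inner_le_Ng g _ i)

lemma avg_sg_mul (i l : Fin n) :
    avg (fun ε : Fin n → Bool => sg (ε l) * sg (ε i)) = if i = l then 1 else 0 := by
  split_ifs with h
  · subst h
    simp only [sg_mul_self]
    exact avg_const 1
  · apply avg_eq_zero_of_flip1 i
    intro ε
    have : l ≠ i := fun h' => h h'.symm
    simp [flip1, this]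

lemma entry_le (U : Matrix (Fin n) (Fin n) ℝ) (g : Fin N → Fin n → ℝ) (j l : Fin n) :
    |U j l| ≤ avg (fun ε => Ng g (Usg U ε)) := by
  have e : avg (fun ε : Fin n → Bool => sg (ε l) * Usg U ε j) = U j l := by
    unfold Usg
    simp only [mul_sum]
    rw [avg_sum]
    have : ∀ i, avg (fun ε : Fin n → Bool => sg (ε l) * (U j i * sg (ε i)))
        = U j i * (if i = l then 1 else 0) := by
      intro i
      rw [← avg_sg_mul i l, ← avg_const_mul]
      congr 1
      funext ε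
      ring
    simp only [this]
    simp
  rw [← e]
  refine (abs_avg_le _).trans (avg_mono fun ε => ?_)
  rw [abs_mul, abs_sg, one_mul]
  exact abs_coord_le_Ng g _ j

/-- The key of a matrix for the net. -/
noncomputable def key (U : Matrix (Fin n) (Fin n) ℝ) : Fin n → Fin n → ℤ :=
  fun j l => ⌊U j l * (n : ℝ) ^ 2⌋

/-- A representative matrix for each key. -/
noncomputable def rep (κ : Fin n → Fin n → ℤ) : Matrix (Fin n) (Fin n) ℝ :=
  open Classical in
  if h : ∃ U : Matrix (Fin n) (Fin n) ℝ, |U.det| = 1 ∧ key U = κ then h.choose else 1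

lemma rep_det (κ : Fin n → Fin n → ℤ) : |(rep κ).det| = 1 := by
  unfold rep
  split_ifs with h
  · exact h.choose_spec.1
  · simp

lemma key_rep (U : Matrix (Fin n) (Fin n) ℝ) (hU : |U.det| = 1) : key (rep (key U)) = key U := by
  have h : ∃ V : Matrix (Fin n) (Fin n) ℝ, |V.det| = 1 ∧ key V = key U := ⟨U, hU, rfl⟩
  unfold rep
  rw [dif_pos h]
  exact h.choose_spec.2

/-- The finite set of keys. -/
noncomputable def Keys (n : ℕ) : Finset (Fin n → Fin n → ℤ) :=
  Fintype.piFinset fun _ => Fintype.piFinset fun _ => Finset.Icc (-(n : ℤ) ^ 3) ((n : ℤ) ^ 3)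

lemma card_Keys (n : ℕ) : (Keys n).card = (2 * n ^ 3 + 1) ^ (n * n) := by
  unfold Keys
  rw [Fintype.card_piFinset]
  simp only [Fintype.card_piFinset, Int.card_Icc, prod_const, card_univ, Fintype.card_fin]
  rw [← pow_mul]
  congr 1
  have : (n : ℤ) ^ 3 + 1 - -(n : ℤ) ^ 3 = ((2 * n ^ 3 + 1 : ℕ) : ℤ) := by push_cast; ring
  rw [this, Int.toNat_natCast]

lemma net_argument (hn : 1 ≤ n) (g : Fin N → Fin n → ℝ) (hg : ∀ i, g i ∈ cube n) (a : ℝ)
    (ha : a ≤ n) (hgood : ∀ κ ∈ Keys n, a < avg (runMax (TU (rep κ)) N (fun _ => 0) g))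
    (U : Matrix (Fin n) (Fin n) ℝ) (hU : |U.det| = 1) :
    a - 1 < avg (fun ε => Ng g (Usg U ε)) := by
  by_contra hcon
  rw [not_lt] at hcon
  have hn' : (1 : ℝ) ≤ n := by exact_mod_cast hn
  have hkey : key U ∈ Keys n := by
    unfold Keys
    rw [Fintype.mem_piFinset]
    intro j
    rw [Fintype.mem_piFinset]
    intro l
    have h1 : |U j l| ≤ n := by
      have := entry_le U g j l
      linarith
    rw [abs_le] at h1
    rw [Finset.mem_Icc]
    constructor
    · unfold key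
      rw [Int.le_floor]
      push_cast
      nlinarith [sq_nonneg (n : ℝ)]
    · unfold key
      have : U j l * (n : ℝ) ^ 2 ≤ ((n : ℤ) ^ 3 : ℤ) := by
        push_cast
        nlinarith [sq_nonneg (n : ℝ)]
      exact_mod_cast (Int.floor_le _).trans this
  set V := rep (key U) with hV
  have hkV : key V = key U := key_rep U hU
  have hclose : ∀ j l, |V j l - U j l| ≤ 1 / (n : ℝ) ^ 2 := by
    intro j l
    have h1 : ⌊V j l * (n : ℝ) ^ 2⌋ = ⌊U j l * (n : ℝ) ^ 2⌋ := congrFun (congrFun hkV j) l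
    have h2 := Int.abs_sub_lt_one_of_floor_eq_floor h1
    rw [← sub_mul, abs_mul, abs_of_nonneg (by positivity : (0:ℝ) ≤ (n : ℝ) ^ 2)] at h2
    rw [le_div_iff₀ (by positivity)]
    exact h2.le
  have hdiff : ∀ ε, Ng g (Usg V ε) ≤ Ng g (Usg U ε) + 1 := by
    intro ε
    have e : Usg V ε = Usg U ε + (Usg V ε - Usg U ε) := by abel
    rw [e]
    refine (Ng_add_le _ _ _).trans (add_le_add le_rfl ?_)
    have hc : ∀ j, |(Usg V ε - Usg U ε) j| ≤ 1 / n := by
      intro j
      have e2 : (Usg V ε - Usg U ε) j = ∑ i, (V j i - U j i) * sg (ε i) := by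
        simp only [Usg, Pi.sub_apply, ← sum_sub_distrib, sub_mul]
      rw [e2]
      calc |∑ i, (V j i - U j i) * sg (ε i)| ≤ ∑ i, |(V j i - U j i) * sg (ε i)| :=
            abs_sum_le_sum_abs _ _
        _ ≤ ∑ _i : Fin n, 1 / (n : ℝ) ^ 2 := by
            apply sum_le_sum
            intro i _
            rw [abs_mul, abs_sg, mul_one]
            exact hclose j i
        _ = 1 / n := by
            simp only [sum_const, card_univ, Fintype.card_fin, nsmul_eq_mul]
            field_simp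
    apply Ng_le
    · norm_num
    · intro j
      refine (hc j).trans ?_
      rw [div_le_one (by linarith)]
      exact hn'
    · intro i
      calc |∑ j, (Usg V ε - Usg U ε) j * g i j| ≤ ∑ j, |(Usg V ε - Usg U ε) j * g i j| :=
            abs_sum_le_sum_abs _ _
        _ ≤ ∑ _j : Fin n, 1 / (n : ℝ) * (1 / 2) := by
            apply sum_le_sum
            intro j _
            rw [abs_mul]
            exact mul_le_mul (hc j) (abs_le_of_mem_cube (hg i) j) (abs_nonneg _) (by positivity)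
        _ ≤ 1 := by
            simp only [sum_const, card_univ, Fintype.card_fin, nsmul_eq_mul]
            field_simp
            norm_num
  have h1 := hgood _ hkey
  have h2 : avg (runMax (TU V) N (fun _ => 0) g) ≤ avg (fun ε => Ng g (Usg U ε)) + 1 := by
    calc avg (runMax (TU V) N (fun _ => 0) g) ≤ avg (fun ε => Ng g (Usg U ε) + 1) :=
          avg_mono fun ε => (runMax_le_Ng V g ε).trans (hdiff ε)
      _ = _ := by rw [avg_add, avg_const]
  linarith

/-- The dual estimate. -/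
lemma dual_bound (hn : 1 ≤ n) (g : Fin N → Fin n → ℝ) (s : ℝ) (hs : 1 ≤ s)
    (W : Matrix (Fin n) (Fin n) ℝ) (h2 : (Fin n → Bool) → ℝ)
    (hh : ∀ x, Ng g x ≤ 1 → ∀ ε, pair (W.mulVec x) ε ≤ h2 ε) (b : ℝ) (hb0 : 0 < b)
    (hb : avg h2 ≤ b) :
    ENNReal.ofReal |W.det| * muc n (Kset s g) ≤ ENNReal.ofReal ((21 * s * b / n) ^ n) := by
  have hn' : (1 : ℝ) ≤ n := by exact_mod_cast hn
  have hs0 : 0 < s := by linarith
  rw [muc_eq, Measure.restrict_apply' (measurableSet_cube n)]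
  have e1 : volume ((Matrix.toLin' W) '' (Kset s g ∩ cube n))
      = ENNReal.ofReal |W.det| * volume (Kset s g ∩ cube n) := by
    rw [Measure.addHaar_image_linearMap, LinearMap.det_toLin']
  rw [← e1]
  have hsub : (Matrix.toLin' W) '' (Kset s g ∩ cube n) ⊆ slack (fun ε => s * h2 ε) 0 := by
    rintro _ ⟨x, ⟨hxK, hxc⟩, rfl⟩
    have hN : Ng g x ≤ s := by
      apply Ng_le g x s hs0.le
      · intro j
        have := abs_le_of_mem_cube hxc j
        linarith
      · exact hxK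
    have hN1 : Ng g (s⁻¹ • x) ≤ 1 := by
      rw [Ng_smul, abs_of_pos (by positivity), inv_mul_le_iff₀ hs0]
      linarith
    have hp : ∀ ε, pair (W.mulVec x) ε ≤ s * h2 ε := by
      intro ε
      have h3 := hh _ hN1 ε
      rw [Matrix.mulVec_smul] at h3
      have h4 : pair (s⁻¹ • W.mulVec x) ε = s⁻¹ * pair (W.mulVec x) ε := by
        simp only [pair, Pi.smul_apply, smul_eq_mul, mul_sum]
        exact sum_congr rfl fun i _ => by ring
      rw [h4, inv_mul_le_iff₀ hs0] at h3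
      exact h3
    have : avg (fun ε => max (pair (W.mulVec x) ε - s * h2 ε) 0) = 0 := by
      have h5 : (fun ε => max (pair (W.mulVec x) ε - s * h2 ε) 0) = fun _ => (0 : ℝ) := by
        funext ε
        exact max_eq_right (by linarith [hp ε])
      rw [h5, avg_const]
    simp only [slack, Set.mem_ofPred_eq, Matrix.toLin'_apply]
    exact this.le
  refine (measure_mono hsub).trans ?_
  set lam : ℝ := s * b / n with hlam
  have hlam0 : 0 < lam := by positivity
  have hvb : VolBound (Fin n) n (4 * lam * √(3 * (1 : ℕ))) lam :=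
    (volBound_blocks 1 n lam hlam0).congr (finCongr (mul_one n))
  refine (hvb _ _).trans ?_
  apply ENNReal.ofReal_le_ofReal
  rw [Fintype.card_fin, avg_const_mul]
  have h3 : (s * avg h2 + 2 ^ n * 0) / lam ≤ (n : ℝ) := by
    rw [div_le_iff₀ hlam0, hlam]
    have : (n : ℝ) * (s * b / n) = s * b := by field_simp
    rw [this]
    nlinarith
  have h4 : Real.exp ((s * avg h2 + 2 ^ n * 0) / lam) ≤ 3 ^ n := by
    calc Real.exp ((s * avg h2 + 2 ^ n * 0) / lam) ≤ Real.exp (n : ℝ) := Real.exp_le_exp.mpr h3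
      _ = (Real.exp 1) ^ n := by rw [← Real.exp_nat_mul, mul_one]
      _ ≤ 3 ^ n := by
          gcongr
          exact Real.exp_one_lt_three.le
  have h5 : √(3 * ((1 : ℕ) : ℝ)) ≤ (7 / 4 : ℝ) := by
    rw [Real.sqrt_le_left (by norm_num)]
    norm_num
  calc (4 * lam * √(3 * ((1 : ℕ) : ℝ))) ^ n * Real.exp ((s * avg h2 + 2 ^ n * 0) / lam)
      ≤ (4 * lam * (7 / 4)) ^ n * 3 ^ n := by gcongr
    _ = (4 * lam * (7 / 4) * 3) ^ n := (mul_pow _ _ _).symm
    _ = (21 * s * b / n) ^ n := by rw [hlam]; congr 1; ring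

/-- The measure of the set of bad choices of vectors. -/
lemma bad_total (m n N' : ℕ) (hn : n = m * 4 ^ m) (hN' : N' = n * m) (hm : 2 ≤ m) :
    (Measure.pi (fun _ : Fin (2 * N') => muc n))
      (⋃ κ ∈ Keys n, {g | avg (runMax (TU (rep κ)) (2 * N') (fun _ => 0) g) ≤
        (1 / 2 ^ 22) * m * 2 ^ m}) ≤ ENNReal.ofReal ((1 / 16) ^ n) := by
  have hm1 : 1 ≤ m := by omega
  have h4 : 1 ≤ 4 ^ m := Nat.one_le_pow _ _ (by norm_num)
  have hn3 : 3 ≤ n := by
    rw [hn]
    calc 3 ≤ 2 * 4 ^ 1 := by norm_num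
      _ ≤ m * 4 ^ m := by gcongr; norm_num
  have hn8 : n ≤ 8 ^ m := by
    rw [hn, show 8 = 2 * 4 by norm_num, mul_pow]
    exact Nat.mul_le_mul_right _ Nat.lt_two_pow_self.le
  have hcard : ((Keys n).card : ℝ) ≤ 2 ^ (12 * m * (n * n)) := by
    rw [card_Keys]
    have h1 : 2 * n ^ 3 + 1 ≤ n ^ 4 := by
      have : 3 * n ^ 3 ≤ n * n ^ 3 := Nat.mul_le_mul_right _ hn3
      have h3 : 1 ≤ n ^ 3 := Nat.one_le_pow _ _ (by omega)
      calc 2 * n ^ 3 + 1 ≤ 2 * n ^ 3 + n ^ 3 := by omega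
        _ = 3 * n ^ 3 := by ring
        _ ≤ n * n ^ 3 := this
        _ = n ^ 4 := by ring
    have h2 : 2 * n ^ 3 + 1 ≤ 2 ^ (12 * m) := by
      calc 2 * n ^ 3 + 1 ≤ n ^ 4 := h1
        _ ≤ (8 ^ m) ^ 4 := Nat.pow_le_pow_left hn8 4
        _ = 2 ^ (12 * m) := by
          rw [show 8 = 2 ^ 3 by norm_num, ← pow_mul, ← pow_mul]
          congr 1; ring
    have h3 : (2 * n ^ 3 + 1) ^ (n * n) ≤ 2 ^ (12 * m * (n * n)) := by
      rw [pow_mul 2]
      exact Nat.pow_le_pow_left h2 _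
    exact_mod_cast h3
  set PP := Measure.pi (fun _ : Fin (2 * N') => muc n) with hPP
  set BB : (Fin n → Fin n → ℤ) → Set (Fin (2 * N') → Fin n → ℝ) := fun κ =>
    {g | avg (runMax (TU (rep κ)) (2 * N') (fun _ => 0) g) ≤ (1 / 2 ^ 22) * m * 2 ^ m} with hBB
  calc PP (⋃ κ ∈ Keys n, BB κ) ≤ ∑ κ ∈ Keys n, PP (BB κ) := measure_biUnion_finset_le _ _
    _ ≤ ∑ κ ∈ Keys n, ENNReal.ofReal (2 ^ (2 * N') * (64 * (1 / 2 ^ 22)) ^ (n * N')) := by
        apply sum_le_sum
        intro κ _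
        exact bad_prob m n N' hn hN' hm1 (1 / 2 ^ 22) (by positivity) (by norm_num) _ (rep_det κ)
    _ = ENNReal.ofReal ((Keys n).card * (2 ^ (2 * N') * (64 * (1 / 2 ^ 22)) ^ (n * N'))) := by
        rw [sum_const, nsmul_eq_mul, ENNReal.ofReal_mul (Nat.cast_nonneg (Keys n).card),
          ENNReal.ofReal_natCast]
    _ ≤ ENNReal.ofReal ((1 / 16) ^ n) := by
        apply ENNReal.ofReal_le_ofReal
        have e1 : (64 * (1 / 2 ^ 22) : ℝ) = 1 / 2 ^ 16 := by norm_num
        rw [e1]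
        have e2 : n * N' = m * (n * n) := by rw [hN']; ring
        have e3 : 2 * N' ≤ 2 * m * (n * n) := by
          rw [hN']
          calc 2 * (n * m) = 2 * m * (n * 1) := by ring
            _ ≤ 2 * m * (n * n) := by gcongr; omega
        calc ((Keys n).card : ℝ) * (2 ^ (2 * N') * (1 / 2 ^ 16) ^ (n * N'))
            ≤ 2 ^ (12 * m * (n * n)) * (2 ^ (2 * m * (n * n)) * (1 / 2 ^ 16) ^ (m * (n * n))) := by
              rw [e2]
              gcongr
              norm_num
          _ = (1 / 4) ^ (m * (n * n)) := by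
              rw [show 12 * m * (n * n) = 12 * (m * (n * n)) by ring,
                show 2 * m * (n * n) = 2 * (m * (n * n)) by ring]
              generalize m * (n * n) = q
              rw [pow_mul, pow_mul, ← mul_pow, ← mul_pow]
              norm_num
          _ ≤ (1 / 4) ^ (2 * n) := by
              apply pow_le_pow_of_le_one (by norm_num) (by norm_num)
              calc 2 * n = 2 * (n * 1) := by ring
                _ ≤ m * (n * n) := by gcongr; omega
          _ = (1 / 16) ^ n := by rw [pow_mul]; norm_num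

/-- Existence of good vectors. -/
lemma exists_good (m n N' : ℕ) (hn : n = m * 4 ^ m) (hN' : N' = n * m) (hm : 2 ≤ m) (s : ℝ)
    (hs : s ^ 4 = m * n ^ 2) (hs0 : 0 < s) :
    ∃ g : Fin (2 * N') → Fin n → ℝ, (∀ i, g i ∈ cube n) ∧
      (∀ κ ∈ Keys n, (1 / 2 ^ 22) * m * 2 ^ m < avg (runMax (TU (rep κ)) (2 * N') (fun _ => 0) g)) ∧
      ENNReal.ofReal ((1 / 16) ^ n) < muc n (Kset s g) := by
  have h4 : 1 ≤ 4 ^ m := Nat.one_le_pow _ _ (by norm_num)
  have hn1 : 1 ≤ n := by
    rw [hn]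
    calc 1 = 1 * 1 := by norm_num
      _ ≤ m * 4 ^ m := Nat.mul_le_mul (by omega) h4
  by_contra hcon
  push Not at hcon
  set PP := Measure.pi (fun _ : Fin (2 * N') => muc n) with hPP
  set Bad : Set (Fin (2 * N') → Fin n → ℝ) := ⋃ κ ∈ Keys n,
    {g | avg (runMax (TU (rep κ)) (2 * N') (fun _ => 0) g) ≤ (1 / 2 ^ 22) * m * 2 ^ m} with hBad
  have hBadm : MeasurableSet Bad := by
    apply Finset.measurableSet_biUnion
    intro κ _
    apply measurableSet_le _ measurable_const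
    apply measurable_avg.comp
    exact (measurable_runMax (TU (rep κ)) (measurable_TU _) (2 * N')).comp
      (measurable_const.prodMk measurable_id)
  have hae : ∀ᵐ g ∂PP, ∀ i, g i ∈ cube n := by
    rw [ae_all_iff]
    intro i
    have h1 := (Measure.quasiMeasurePreserving_eval (μ := fun _ : Fin (2 * N') => muc n) i)
    exact h1.ae (ae_mem_cube n)
  have hle : ∫⁻ g, muc n (Kset s g) ∂PP ≤ ENNReal.ofReal ((1 / 16) ^ n) + PP Bad := by
    calc ∫⁻ g, muc n (Kset s g) ∂PP
        ≤ ∫⁻ g, (ENNReal.ofReal ((1 / 16) ^ n) + Bad.indicator 1 g) ∂PP := by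
          apply lintegral_mono_ae
          filter_upwards [hae] with g hg
          by_cases hb : g ∈ Bad
          · rw [Set.indicator_of_mem hb]
            exact prob_le_one.trans le_add_self
          · rw [Set.indicator_of_notMem hb, add_zero]
            apply hcon g hg
            intro κ hκ
            by_contra hκ'
            rw [not_lt] at hκ'
            apply hb
            rw [hBad]
            simp only [Set.mem_iUnion]
            exact ⟨κ, hκ, hκ'⟩
      _ = ENNReal.ofReal ((1 / 16) ^ n) + PP Bad := by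
          rw [lintegral_add_left measurable_const, lintegral_const, measure_univ, mul_one,
            lintegral_indicator_one hBadm]
  have h1 := mean_volume m n N' hn1 (by omega) hN' s hs hs0
  have h2 := bad_total m n N' hn hN' hm
  have h3 : ENNReal.ofReal ((1 / 4) ^ n) ≤ ENNReal.ofReal ((1 / 16) ^ n + (1 / 16) ^ n) := by
    rw [ENNReal.ofReal_add (by positivity) (by positivity)]
    exact h1.trans (hle.trans (add_le_add le_rfl h2))
  rw [ENNReal.ofReal_le_ofReal_iff (by positivity)] at h3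
  have h5 : (1 / 4 : ℝ) ^ n = 4 ^ n * (1 / 16) ^ n := by rw [← mul_pow]; norm_num
  have h6 : (4 : ℝ) ≤ 4 ^ n := by
    calc (4 : ℝ) = 4 ^ 1 := by norm_num
      _ ≤ 4 ^ n := pow_le_pow_right₀ (by norm_num) hn1
  have h7 : (0 : ℝ) < (1 / 16) ^ n := by positivity
  nlinarith

/-- The main inequality in matrix form. -/
theorem main_matrix (C : ℝ) : ∃ (n N : ℕ) (g : Fin N → Fin n → ℝ),
    ∀ (U W : Matrix (Fin n) (Fin n) ℝ), |U.det| * |W.det| = 1 →
    ∀ h2 : (Fin n → Bool) → ℝ, (∀ x, Ng g x ≤ 1 → ∀ ε, pair (W.mulVec x) ε ≤ h2 ε) →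
      C * n < avg (fun ε => Ng g (Usg U ε)) * avg h2 := by
  obtain ⟨p, hp⟩ := exists_nat_gt (2 ^ 22 * (336 * (|C| + 1) + 2))
  have hp2 : (2 : ℝ) < p := by
    have : 0 ≤ |C| := abs_nonneg C
    linarith
  have hp2' : 2 < p := by exact_mod_cast hp2
  obtain ⟨m, hm⟩ : ∃ m, m = p ^ 4 := ⟨_, rfl⟩
  obtain ⟨n, hn⟩ : ∃ n, n = m * 4 ^ m := ⟨_, rfl⟩
  obtain ⟨N', hN'⟩ : ∃ N', N' = n * m := ⟨_, rfl⟩
  have hm2 : 2 ≤ m := by
    rw [hm]
    calc 2 ≤ p := hp2'.le
      _ = p ^ 1 := (pow_one p).symm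
      _ ≤ p ^ 4 := Nat.pow_le_pow_right (by omega) (by norm_num)
  have hn1 : 1 ≤ n := by
    rw [hn]
    have h4 : 1 ≤ 4 ^ m := Nat.one_le_pow _ _ (by norm_num)
    calc 1 ≤ 2 * 1 := by norm_num
      _ ≤ m * 4 ^ m := by gcongr
  have hn0 : (0 : ℝ) < n := by exact_mod_cast hn1
  set s : ℝ := (p : ℝ) ^ 3 * 2 ^ m with hs
  have hs0 : 0 < s := by positivity
  have hs1 : 1 ≤ s := by
    have h1 : (1 : ℝ) ≤ (p : ℝ) ^ 3 := one_le_pow₀ (by linarith)
    have h2 : (1 : ℝ) ≤ 2 ^ m := one_le_pow₀ (by norm_num)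
    nlinarith
  have hs4 : s ^ 4 = m * n ^ 2 := by
    rw [hs, hn, hm]
    push_cast
    have e : (4 : ℝ) ^ (p ^ 4) = (2 ^ (p ^ 4)) ^ 2 := by
      rw [← pow_mul, mul_comm, pow_mul]; norm_num
    rw [e]
    ring
  obtain ⟨g, hg, hgood, hvol⟩ := exists_good m n N' hn hN' hm2 s hs4 hs0
  refine ⟨n, 2 * N', g, ?_⟩
  intro U W hdet h2 hh
  set a : ℝ := (1 / 2 ^ 22) * m * 2 ^ m with ha
  have han : a ≤ n := by
    rw [ha, hn]
    push_cast
    have h1 : (2 : ℝ) ^ m ≤ 4 ^ m := pow_le_pow_left₀ (by norm_num) (by norm_num) m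
    have h2 : (0 : ℝ) < m := by exact_mod_cast (by omega : 0 < m)
    calc (1 / 2 ^ 22) * (m : ℝ) * 2 ^ m ≤ 1 * m * 4 ^ m := by
          gcongr
          norm_num
      _ = m * 4 ^ m := by ring
  -- the key comparison a - 1 > 336 |C| s
  have h2m : (1 : ℝ) ≤ 2 ^ m := one_le_pow₀ (by norm_num)
  have hp3 : (1 : ℝ) ≤ (p : ℝ) ^ 3 := one_le_pow₀ (by linarith)
  have hcomp : 336 * s * (|C| + 1) + 1 < a - 1 + 1 := by
    have e1 : a = (1 / 2 ^ 22) * p * s := by rw [ha, hs, hm]; push_cast; ring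
    rw [e1]
    have h3 : 336 * (|C| + 1) + 2 < (1 / 2 ^ 22) * p := by
      rw [div_mul_eq_mul_div, one_mul, lt_div_iff₀ (by positivity)]
      linarith
    nlinarith
  have hC0 : 0 ≤ |C| := abs_nonneg C
  have ha1 : 0 < a - 1 := by nlinarith
  -- the determinant scale
  have hdetU : 0 < |U.det| := by
    rcases (abs_nonneg U.det).eq_or_lt with h | h
    · rw [← h, zero_mul] at hdet
      norm_num at hdet
    · exact h
  set d : ℝ := |U.det| ^ ((n : ℝ)⁻¹) with hd
  have hd0 : 0 < d := Real.rpow_pos_of_pos hdetU _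
  have hdn : d ^ n = |U.det| := Real.rpow_inv_natCast_pow hdetU.le (by omega)
  have hU1 : |(d⁻¹ • U).det| = 1 := by
    rw [Matrix.det_smul, Fintype.card_fin, abs_mul, abs_pow, abs_of_pos (inv_pos.mpr hd0), inv_pow,
      hdn, inv_mul_cancel₀ hdetU.ne']
  have hA1 := net_argument hn1 g hg a han hgood _ hU1
  have hA2 : avg (fun ε => Ng g (Usg (d⁻¹ • U) ε)) = d⁻¹ * avg (fun ε => Ng g (Usg U ε)) := by
    rw [← avg_const_mul]
    congr 1
    funext ε
    have : Usg (d⁻¹ • U) ε = d⁻¹ • Usg U ε := by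
      funext j
      simp only [Usg, Matrix.smul_apply, smul_eq_mul, Pi.smul_apply, mul_sum, mul_assoc]
    rw [this, Ng_smul, abs_of_pos (inv_pos.mpr hd0)]
  rw [hA2, lt_inv_mul_iff₀ hd0] at hA1
  set A := avg (fun ε => Ng g (Usg U ε)) with hA
  have hApos : 0 < A := lt_of_le_of_lt (by positivity) hA1
  by_contra hcon
  rw [not_lt] at hcon
  -- bound on avg h2
  set b : ℝ := (|C| + 1) * n / A with hb
  have hb0 : 0 < b := by positivity
  have hbb : avg h2 ≤ b := by
    rw [hb, le_div_iff₀ hApos]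
    have : C * n ≤ (|C| + 1) * n := by
      have := le_abs_self C
      gcongr
      linarith
    linarith
  have hdual := dual_bound hn1 g s hs1 W h2 hh b hb0 hbb
  have hW0 : 0 < |W.det| := by
    rcases (abs_nonneg W.det).eq_or_lt with h | h
    · rw [← h, mul_zero] at hdet
      norm_num at hdet
    · exact h
  have h3 : ENNReal.ofReal (|W.det| * (1 / 16) ^ n) ≤ ENNReal.ofReal ((21 * s * b / n) ^ n) := by
    rw [ENNReal.ofReal_mul hW0.le]
    exact (mul_le_mul' le_rfl hvol.le).trans hdual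
  rw [ENNReal.ofReal_le_ofReal_iff (by positivity)] at h3
  have h4 : (1 / 16 : ℝ) ^ n ≤ (21 * s * b / n * d) ^ n := by
    rw [mul_pow, hdn]
    calc (1 / 16 : ℝ) ^ n = (|W.det| * (1 / 16) ^ n) * |U.det| := by
          rw [mul_right_comm, mul_comm |W.det|, hdet, one_mul]
      _ ≤ (21 * s * b / n) ^ n * |U.det| := by gcongr
  have h5 : (1 / 16 : ℝ) ≤ 21 * s * b / n * d :=
    le_of_pow_le_pow_left₀ (by omega) (by positivity) h4
  have h6 : 21 * s * b / n * d = 21 * s * (|C| + 1) * (d / A) := by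
    rw [hb]
    field_simp
  have h7 : d / A ≤ 1 / (a - 1) := by
    rw [div_le_div_iff₀ hApos ha1]
    linarith
  have h8 : (1 / 16 : ℝ) ≤ 21 * s * (|C| + 1) * (1 / (a - 1)) := by
    rw [h6] at h5
    exact h5.trans (by gcongr)
  have h9 : a - 1 ≤ 336 * s * (|C| + 1) := by
    rw [mul_one_div, le_div_iff₀ ha1] at h8
    linarith
  nlinarith

end Pool.Agent.H35
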