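import Mathlib

set_option autoImplicit false
set_option linter.unusedSectionVars false

/-!
Averages over the `2 ^ n` sign vectors and the moments of sign sums.
-/

namespace Pool.Agent.H35

open Finset

/-- The sign `1` or `-1` attached to a boolean. -/
def sg (b : Bool) : ℝ := if b then 1 else -1

@[simp] lemma sg_true : sg true = 1 := rfl
@[simp] lemma sg_false : sg false = -1 := by simp [sg]
@[simp] lemma sg_not (b : Bool) : sg (!b) = - sg b := by cases b <;> simp
lemma sg_sq (b : Bool) : sg b ^ 2 = 1 := by cases b <;> simp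
lemma sg_mul_self (b : Bool) : sg b * sg b = 1 := by cases b <;> simp
lemma abs_sg (b : Bool) : |sg b| = 1 := by cases b <;> simp

variable {ι κ : Type*} [Fintype ι] [DecidableEq ι] [Fintype κ] [DecidableEq κ]

/-- The average of `f` over all sign vectors. -/
noncomputable def avg (f : (ι → Bool) → ℝ) : ℝ := (∑ ε, f ε) / 2 ^ Fintype.card ι

lemma two_pow_card_pos : (0 : ℝ) < 2 ^ Fintype.card ι := by positivity

lemma avg_add (f g : (ι → Bool) → ℝ) : avg (fun ε => f ε + g ε) = avg f + avg g := by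
  simp only [avg, sum_add_distrib, add_div]

lemma avg_sub (f g : (ι → Bool) → ℝ) : avg (fun ε => f ε - g ε) = avg f - avg g := by
  simp only [avg, sum_sub_distrib, sub_div]

lemma avg_neg (f : (ι → Bool) → ℝ) : avg (fun ε => - f ε) = - avg f := by
  simp only [avg, sum_neg_distrib, neg_div]

lemma avg_const_mul (c : ℝ) (f : (ι → Bool) → ℝ) : avg (fun ε => c * f ε) = c * avg f := by
  simp only [avg, ← mul_sum, mul_div_assoc]

lemma avg_mul_const (c : ℝ) (f : (ι → Bool) → ℝ) : avg (fun ε => f ε * c) = avg f * c := by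
  simp only [avg, ← sum_mul]; ring

lemma avg_const (c : ℝ) : avg (fun _ : ι → Bool => c) = c := by
  simp only [avg, sum_const, card_univ, Fintype.card_pi, Fintype.card_bool, prod_const, nsmul_eq_mul]
  have := two_pow_card_pos (ι := ι)
  push_cast
  field_simp

lemma avg_mono {f g : (ι → Bool) → ℝ} (h : ∀ ε, f ε ≤ g ε) : avg f ≤ avg g := by
  unfold avg
  gcongr with ε
  exact h ε

lemma avg_nonneg {f : (ι → Bool) → ℝ} (h : ∀ ε, 0 ≤ f ε) : 0 ≤ avg f := by
  unfold avg
  have := two_pow_card_pos (ι := ι)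
  exact div_nonneg (sum_nonneg fun ε _ => h ε) this.le

lemma avg_sum {α : Type*} (s : Finset α) (f : α → (ι → Bool) → ℝ) :
    avg (fun ε => ∑ a ∈ s, f a ε) = ∑ a ∈ s, avg (f a) := by
  simp only [avg]
  rw [sum_comm, sum_div]

lemma abs_avg_le (f : (ι → Bool) → ℝ) : |avg f| ≤ avg (fun ε => |f ε|) := by
  rw [abs_le]
  constructor
  · rw [← avg_neg]
    exact avg_mono fun ε => neg_abs_le _
  · exact avg_mono fun ε => le_abs_self _

/-- Averages are invariant under re-indexing the sign vectors by a permutation. -/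
lemma avg_perm (e : (ι → Bool) ≃ (ι → Bool)) (f : (ι → Bool) → ℝ) :
    avg (fun ε => f (e ε)) = avg f := by
  simp only [avg]
  rw [Equiv.sum_comp e f]

/-- Flip one coordinate of a sign vector. -/
def flip1 (a : ι) (ε : ι → Bool) : ι → Bool := Function.update ε a (!(ε a))

lemma flip1_invol (a : ι) : Function.Involutive (flip1 a) := by
  intro ε
  simp [flip1]

lemma avg_flip1 (a : ι) (f : (ι → Bool) → ℝ) : avg (fun ε => f (flip1 a ε)) = avg f :=
  avg_perm (flip1_invol a).toPerm f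

/-- Flip all coordinates of a sign vector. -/
def flipAll (ε : ι → Bool) : ι → Bool := fun i => !(ε i)

lemma flipAll_invol : Function.Involutive (flipAll (ι := ι)) := by
  intro ε
  funext i
  simp [flipAll]

lemma avg_flipAll (f : (ι → Bool) → ℝ) : avg (fun ε => f (flipAll ε)) = avg f :=
  avg_perm flipAll_invol.toPerm f

lemma avg_eq_zero_of_flip1 (a : ι) (f : (ι → Bool) → ℝ) (h : ∀ ε, f (flip1 a ε) = - f ε) :
    avg f = 0 := by
  have := avg_flip1 a f
  simp only [h, avg_neg] at this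
  linarith

lemma avg_eq_zero_of_flipAll (f : (ι → Bool) → ℝ) (h : ∀ ε, f (flipAll ε) = - f ε) :
    avg f = 0 := by
  have := avg_flipAll f
  simp only [h, avg_neg] at this
  linarith

/-- The signed sum `∑ ± x i`. -/
def pair (x : ι → ℝ) (ε : ι → Bool) : ℝ := ∑ i, sg (ε i) * x i

lemma pair_flipAll (x : ι → ℝ) (ε : ι → Bool) : pair x (flipAll ε) = - pair x ε := by
  simp [pair, flipAll]

lemma pair_sub (x y : ι → ℝ) (ε : ι → Bool) : pair (x - y) ε = pair x ε - pair y ε := by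
  simp only [pair, Pi.sub_apply, mul_sub, sum_sub_distrib]

lemma avg_pair (x : ι → ℝ) : avg (pair x) = 0 :=
  avg_eq_zero_of_flipAll _ (pair_flipAll x)

lemma abs_pair_le (x : ι → ℝ) (ε : ι → Bool) : |pair x ε| ≤ ∑ i, |x i| := by
  unfold pair
  refine (abs_sum_le_sum_abs _ _).trans (le_of_eq ?_)
  refine sum_congr rfl fun i _ => ?_
  rw [abs_mul, abs_sg, one_mul]

lemma avg_sq_fourth (x : ι → ℝ) (s : Finset ι) :
    avg (fun ε => (∑ i ∈ s, sg (ε i) * x i) ^ 2) = ∑ i ∈ s, x i ^ 2 ∧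
    avg (fun ε => (∑ i ∈ s, sg (ε i) * x i) ^ 4) ≤ 3 * (∑ i ∈ s, x i ^ 2) ^ 2 := by
  induction s using Finset.induction_on with
  | empty => simp [avg]
  | insert a s ha ih =>
    obtain ⟨ih2, ih4⟩ := ih
    set S : (ι → Bool) → ℝ := fun ε => ∑ i ∈ s, sg (ε i) * x i with hS
    have hflip : ∀ ε, S (flip1 a ε) = S ε := by
      intro ε
      refine sum_congr rfl fun i hi => ?_
      have : i ≠ a := fun h => ha (h ▸ hi)
      simp [flip1, this]
    have hsga : ∀ ε : ι → Bool, sg (flip1 a ε a) = - sg (ε a) := by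
      intro ε; simp [flip1]
    have h1 : avg (fun ε => sg (ε a) * S ε) = 0 := by
      apply avg_eq_zero_of_flip1 a
      intro ε; rw [hflip, hsga]; ring
    have h3 : avg (fun ε => sg (ε a) * S ε ^ 3) = 0 := by
      apply avg_eq_zero_of_flip1 a
      intro ε; rw [hflip, hsga]; ring
    have e2 : avg (fun ε => (∑ i ∈ insert a s, sg (ε i) * x i) ^ 2)
        = avg (fun ε => S ε ^ 2) + x a ^ 2 := by
      have : ∀ ε : ι → Bool, (∑ i ∈ insert a s, sg (ε i) * x i) ^ 2
          = (S ε ^ 2 + x a ^ 2) + (2 * x a) * (sg (ε a) * S ε) := by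
        intro ε
        rw [sum_insert ha]
        have := sg_sq (ε a)
        simp only [hS]
        linear_combination (x a ^ 2) * this
      simp only [this]
      rw [avg_add, avg_add, avg_const, avg_const_mul, h1]
      ring
    have e4 : avg (fun ε => (∑ i ∈ insert a s, sg (ε i) * x i) ^ 4)
        = avg (fun ε => S ε ^ 4) + 6 * x a ^ 2 * avg (fun ε => S ε ^ 2) + x a ^ 4 := by
      have : ∀ ε : ι → Bool, (∑ i ∈ insert a s, sg (ε i) * x i) ^ 4
          = (S ε ^ 4 + (6 * x a ^ 2) * S ε ^ 2 + x a ^ 4) +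
            ((4 * x a) * (sg (ε a) * S ε ^ 3) + (4 * x a ^ 3) * (sg (ε a) * S ε)) := by
        intro ε
        rw [sum_insert ha]
        have := sg_sq (ε a)
        simp only [hS]
        set T := ∑ i ∈ s, sg (ε i) * x i
        set e := sg (ε a)
        linear_combination (x a ^ 4 * (e ^ 2 + 1) + 4 * x a ^ 3 * e * T + 6 * x a ^ 2 * T ^ 2) * this
      simp only [this]
      rw [avg_add, avg_add, avg_add, avg_const, avg_const_mul, avg_add, avg_const_mul,
        avg_const_mul, h1, h3]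
      ring
    rw [sum_insert ha]
    refine ⟨by rw [e2, ih2]; ring, ?_⟩
    rw [e4, ih2]
    nlinarith [sq_nonneg (x a ^ 2), sum_nonneg fun i (_ : i ∈ s) => sq_nonneg (x i)]

lemma avg_pair_sq (x : ι → ℝ) : avg (fun ε => pair x ε ^ 2) = ∑ i, x i ^ 2 :=
  (avg_sq_fourth x univ).1

lemma avg_pair_fourth (x : ι → ℝ) : avg (fun ε => pair x ε ^ 4) ≤ 3 * (∑ i, x i ^ 2) ^ 2 :=
  (avg_sq_fourth x univ).2

/-- A form of the Khintchine inequality with the constant `1 / √3`. -/
lemma khintchine (x : ι → ℝ) :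
    √(∑ i, x i ^ 2) ≤ √3 * avg (fun ε => |pair x ε|) := by
  set σ := √(∑ i, x i ^ 2) with hσ
  have hs : 0 ≤ ∑ i, x i ^ 2 := sum_nonneg fun i _ => sq_nonneg _
  have hσ2 : σ ^ 2 = ∑ i, x i ^ 2 := Real.sq_sqrt hs
  have hσ0 : 0 ≤ σ := Real.sqrt_nonneg _
  have h3 : √3 ^ 2 = (3 : ℝ) := Real.sq_sqrt (by norm_num)
  have h30 : 0 < √(3 : ℝ) := by positivity
  rcases hσ0.eq_or_lt with h0 | hpos
  · rw [← h0]
    exact mul_nonneg h30.le (avg_nonneg fun ε => abs_nonneg _)
  -- pointwise inequality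
  have key : ∀ s : ℝ, 9 * σ ^ 2 * s ^ 2 ≤ 6 * √3 * σ ^ 3 * |s| + s ^ 4 := by
    intro s
    have hs0 := abs_nonneg s
    have e2 : s ^ 2 = |s| ^ 2 := (sq_abs s).symm
    have e4 : s ^ 4 = |s| ^ 4 := by
      rw [show s ^ 4 = (s ^ 2) ^ 2 by ring, e2]; ring
    rw [e2, e4]
    set t := |s|
    -- t * (t^3 - 9 σ^2 t + 6 √3 σ^3) = t (t - √3 σ)^2 (t + 2 √3 σ)
    have : 6 * √3 * σ ^ 3 * t + t ^ 4 - 9 * σ ^ 2 * t ^ 2
        = t * ((t - √3 * σ) ^ 2 * (t + 2 * √3 * σ)) := by
      have h33 : √3 ^ 3 = 3 * √(3:ℝ) := by rw [pow_succ, h3]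
      ring_nf
      rw [h3, h33]
      ring
    have hnn : 0 ≤ t * ((t - √3 * σ) ^ 2 * (t + 2 * √3 * σ)) := by positivity
    linarith
  have hav := avg_mono (ι := ι) (f := fun ε => 9 * σ ^ 2 * pair x ε ^ 2)
    (g := fun ε => 6 * √3 * σ ^ 3 * |pair x ε| + pair x ε ^ 4) (fun ε => key _)
  rw [avg_const_mul, avg_add, avg_const_mul, avg_pair_sq, ← hσ2] at hav
  have h4 := avg_pair_fourth x
  rw [← hσ2] at h4
  have : 6 * σ ^ 4 ≤ 6 * √3 * σ ^ 3 * avg (fun ε => |pair x ε|) := by nlinarith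
  have h5 : σ ^ 3 * σ ≤ σ ^ 3 * (√3 * avg (fun ε => |pair x ε|)) := by nlinarith
  exact le_of_mul_le_mul_left h5 (by positivity)

lemma khintchine_l1 (x : ι → ℝ) :
    ∑ i, |x i| ≤ √(3 * Fintype.card ι) * avg (fun ε => |pair x ε|) := by
  have h1 : ∑ i, |x i| ≤ √(Fintype.card ι) * √(∑ i, x i ^ 2) := by
    rw [← Real.sqrt_mul (by positivity)]
    apply Real.le_sqrt_of_sq_le
    have := sq_sum_le_card_mul_sum_sq (s := (univ : Finset ι)) (f := fun i => |x i|)
    simpa [sq_abs] using this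
  have h2 := khintchine x
  calc ∑ i, |x i| ≤ √(Fintype.card ι) * √(∑ i, x i ^ 2) := h1
    _ ≤ √(Fintype.card ι) * (√3 * avg (fun ε => |pair x ε|)) := by gcongr
    _ = _ := by rw [Real.sqrt_mul (by norm_num)]; ring

/-- Averaging over a disjoint union of index sets is iterated averaging. -/
lemma avg_sumType (f : (κ ⊕ ι → Bool) → ℝ) :
    avg f = avg (fun ε' : κ → Bool => avg (fun ε'' : ι → Bool => f (Sum.elim ε' ε''))) := by
  simp only [avg, Fintype.card_sum]
  rw [← (Equiv.sumArrowEquivProdArrow κ ι Bool).symm.sum_comp, Fintype.sum_prod_type]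
  rw [← sum_div, pow_add]
  have h1 := two_pow_card_pos (ι := ι)
  have h2 := two_pow_card_pos (ι := κ)
  field_simp
  refine sum_congr rfl fun a _ => sum_congr rfl fun b _ => ?_
  congr 1

lemma pair_sumType (x : κ ⊕ ι → ℝ) (ε' : κ → Bool) (ε'' : ι → Bool) :
    pair x (Sum.elim ε' ε'') = pair (x ∘ Sum.inl) ε' + pair (x ∘ Sum.inr) ε'' := by
  simp [pair, Fintype.sum_sum_type]

/-- Averages and re-indexing of coordinates. -/
lemma avg_equiv (e : ι ≃ κ) (f : (κ → Bool) → ℝ) :
    avg f = avg (fun ε : ι → Bool => f (ε ∘ e.symm)) := by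
  simp only [avg, Fintype.card_congr e]
  congr 1
  exact (Fintype.sum_equiv (Equiv.arrowCongr e (Equiv.refl Bool)) _ _ (fun ε => rfl)).symm

lemma pair_equiv (e : ι ≃ κ) (x : κ → ℝ) (ε : ι → Bool) :
    pair x (ε ∘ e.symm) = pair (x ∘ e) ε := by
  simp only [pair]
  exact Fintype.sum_equiv e.symm _ _ (fun i => by simp)

end Pool.Agent.H35
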