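import Pool.Agent.H35.SignAvg

set_option autoImplicit false
set_option linter.unusedSectionVars false

/-!
The volume lemma: the set of vectors whose signed sums exceed a given function `h` on the sign cube
by at most `θ` on average has small volume.
-/

namespace Pool.Agent.H35

open Finset MeasureTheory
open scoped ENNReal

/-- A two-point inequality controls an integral. -/
lemma lintegral_le_of_two_point {E : Type*} [AddGroup E] [MeasurableSpace E] [MeasurableAdd E]
    (μ : Measure E) [μ.IsAddRightInvariant] (q K : E → ℝ≥0∞) (D : ℝ≥0∞)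
    (hD : D ≠ ∞) (hK0 : K 0 ≤ 1) (h : ∀ x y, q x * q y ≤ (D * K (x - y)) ^ 2) :
    ∫⁻ x, q x ∂μ ≤ D * ∫⁻ x, K x ∂μ := by
  set p : E → ℝ≥0∞ := fun x => (q x) ^ (1 / 2 : ℝ) with hp
  have hpp : ∀ x, p x * p x = q x := by
    intro x
    simp only [hp]
    rw [← ENNReal.rpow_add_of_nonneg _ _ (by norm_num) (by norm_num)]
    norm_num
  have h2 : ∀ x y, p x * p y ≤ D * K (x - y) := by
    intro x y
    simp only [hp]
    rw [← ENNReal.mul_rpow_of_nonneg _ _ (by norm_num : (0:ℝ) ≤ 1/2)]
    calc (q x * q y) ^ (1 / 2 : ℝ) ≤ ((D * K (x - y)) ^ 2) ^ (1 / 2 : ℝ) :=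
          ENNReal.rpow_le_rpow (h x y) (by norm_num)
      _ = D * K (x - y) := by
          rw [← ENNReal.rpow_natCast, ← ENNReal.rpow_mul]
          norm_num
  set s : ℝ≥0∞ := ⨆ x, p x with hs
  have hpD : ∀ x, p x * p x ≤ D := by
    intro x
    calc p x * p x ≤ D * K (x - x) := h2 x x
      _ ≤ D * 1 := by
        gcongr
        simpa using hK0
      _ = D := mul_one D
  have hpt : ∀ x, p x ≠ ∞ := by
    intro x hx
    have := hpD x
    rw [hx, ENNReal.top_mul_top] at this
    exact hD (top_le_iff.mp this)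
  have hsD : s ≤ D ^ (1 / 2 : ℝ) := by
    apply iSup_le
    intro x
    calc p x = (p x * p x) ^ (1 / 2 : ℝ) := by
          rw [ENNReal.mul_rpow_of_nonneg _ _ (by norm_num : (0:ℝ) ≤ 1/2),
            ← ENNReal.rpow_add_of_nonneg _ _ (by norm_num) (by norm_num)]
          norm_num
      _ ≤ D ^ (1 / 2 : ℝ) := ENNReal.rpow_le_rpow (hpD x) (by norm_num)
  have hst : s ≠ ∞ := by
    intro hst
    rw [hst] at hsD
    have : D ^ (1 / 2 : ℝ) = ∞ := top_le_iff.mp hsD
    rw [ENNReal.rpow_eq_top_iff] at this
    rcases this with h | h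
    · norm_num at h
    · exact hD h.1
  rcases eq_or_ne s 0 with h0 | h0
  · have : ∀ x, q x = 0 := by
      intro x
      have : p x = 0 := by
        have : p x ≤ s := le_iSup p x
        rw [h0] at this
        exact le_antisymm this bot_le
      rw [← hpp, this, zero_mul]
    simp [this]
  have key : s * ∫⁻ x, q x ∂μ ≤ s * (D * ∫⁻ x, K x ∂μ) := by
    rw [hs, ENNReal.iSup_mul]
    apply iSup_le
    intro x0
    rw [← hs]
    calc p x0 * ∫⁻ x, q x ∂μ = ∫⁻ x, p x0 * q x ∂μ := by
          rw [lintegral_const_mul' _ _ (hpt x0)]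
      _ ≤ ∫⁻ x, s * D * K (x - x0) ∂μ := by
          apply lintegral_mono
          intro x
          show p x0 * q x ≤ s * D * K (x - x0)
          rw [← hpp x]
          calc p x0 * (p x * p x) = p x * (p x * p x0) := by ring
            _ ≤ s * (D * K (x - x0)) := mul_le_mul' (le_iSup p x) (h2 x x0)
            _ = s * D * K (x - x0) := by ring
      _ = s * D * ∫⁻ x, K (x - x0) ∂μ := by
          rw [lintegral_const_mul' _ _ (ENNReal.mul_ne_top hst hD)]
      _ = s * (D * ∫⁻ x, K x ∂μ) := by
          rw [lintegral_sub_right_eq_self, mul_assoc]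
  exact (ENNReal.mul_le_mul_iff_right h0 hst).mp key

variable {ι κ : Type} [Fintype ι] [DecidableEq ι] [Fintype κ] [DecidableEq κ]

/-- Vectors whose signed sums exceed `h` by at most `θ` on average. -/
def slack (h : (ι → Bool) → ℝ) (θ : ℝ) : Set (ι → ℝ) :=
  {x | avg (fun ε => max (pair x ε - h ε) 0) ≤ θ}

lemma continuous_pair (ε : ι → Bool) : Continuous (fun x : ι → ℝ => pair x ε) := by
  unfold pair
  fun_prop

lemma continuous_excess (h : (ι → Bool) → ℝ) :
    Continuous (fun x : ι → ℝ => avg (fun ε => max (pair x ε - h ε) 0)) := by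
  unfold avg
  have := continuous_pair (ι := ι)
  fun_prop

lemma isClosed_slack (h : (ι → Bool) → ℝ) (θ : ℝ) : IsClosed (slack h θ) :=
  isClosed_le (continuous_excess h) continuous_const

/-- The volume bound for `m` blocks. -/
def VolBound (ι : Type) [Fintype ι] [DecidableEq ι] (m : ℕ) (B lam : ℝ) : Prop :=
  ∀ (h : (ι → Bool) → ℝ) (θ : ℝ),
    volume (slack h θ) ≤ ENNReal.ofReal (B ^ Fintype.card ι * Real.exp ((avg h + 2 ^ m * θ) / lam))

lemma slack_nonneg {h : (ι → Bool) → ℝ} {θ : ℝ} {x : ι → ℝ} (hx : x ∈ slack h θ) :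
    0 ≤ avg h + θ := by
  have h1 : avg (fun ε => pair x ε - h ε) ≤ θ :=
    (avg_mono fun ε => le_max_left _ _).trans hx
  rw [avg_sub, avg_pair] at h1
  linarith

lemma volBound_zero [IsEmpty ι] (B lam : ℝ) (hlam : 0 < lam) : VolBound ι 0 B lam := by
  intro h θ
  rcases (slack h θ).eq_empty_or_nonempty with h0 | ⟨x, hx⟩
  · rw [h0]; simp
  have h1 := slack_nonneg hx
  have h2 : volume (slack h θ) ≤ 1 := by
    calc volume (slack h θ) ≤ volume (Set.univ : Set (ι → ℝ)) := measure_mono (Set.subset_univ _)
      _ = 1 := by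
        rw [volume_pi, Measure.pi_univ]
        simp
  refine h2.trans ?_
  rw [← ENNReal.ofReal_one]
  apply ENNReal.ofReal_le_ofReal
  simp only [Fintype.card_eq_zero, pow_zero, one_mul]
  rw [Real.one_le_exp_iff]
  positivity

lemma avg_comm (f : (κ → Bool) → (ι → Bool) → ℝ) :
    avg (fun a => avg (fun b => f a b)) = avg (fun b => avg (fun a => f a b)) := by
  simp only [avg, ← sum_div]
  rw [sum_comm]
  rw [div_div, div_div, mul_comm]

/-- Fibres of a slack set are contained in slack sets. -/
lemma fibre_subset (h : (κ ⊕ ι → Bool) → ℝ) (θ : ℝ) (x' : κ → ℝ) (w : (κ → Bool) → ℝ)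
    (hw0 : ∀ a, 0 ≤ w a) (hw2 : ∀ a, w a ≤ 2) (hw1 : avg w = 1) {x'' : ι → ℝ}
    (hx : Sum.elim x' x'' ∈ slack h θ) :
    x'' ∈ slack (fun b => avg (fun a => w a * (h (Sum.elim a b) - pair x' a))) (2 * θ) := by
  simp only [slack, Set.mem_ofPred_eq] at hx ⊢
  rw [avg_sumType, avg_comm] at hx
  calc avg (fun b => max (pair x'' b - avg (fun a => w a * (h (Sum.elim a b) - pair x' a))) 0)
      ≤ avg (fun b => 2 * avg (fun a => max (pair (Sum.elim x' x'') (Sum.elim a b)
          - h (Sum.elim a b)) 0)) := by
        apply avg_mono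
        intro b
        have e1 : pair x'' b - avg (fun a => w a * (h (Sum.elim a b) - pair x' a))
            = avg (fun a => w a * (pair (Sum.elim x' x'') (Sum.elim a b) - h (Sum.elim a b))) := by
          have : ∀ a, w a * (pair (Sum.elim x' x'') (Sum.elim a b) - h (Sum.elim a b))
              = w a * pair x'' b - w a * (h (Sum.elim a b) - pair x' a) := by
            intro a
            rw [pair_sumType]
            simp only [Sum.elim_comp_inl, Sum.elim_comp_inr]
            ring
          simp only [this]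
          rw [avg_sub, avg_mul_const, hw1, one_mul]
        rw [e1, ← avg_const_mul]
        apply max_le
        · apply avg_mono
          intro a
          have := hw0 a
          have := hw2 a
          have h3 := le_max_left (pair (Sum.elim x' x'') (Sum.elim a b) - h (Sum.elim a b)) 0
          have h4 := le_max_right (pair (Sum.elim x' x'') (Sum.elim a b) - h (Sum.elim a b)) 0
          nlinarith
        · apply avg_nonneg
          intro a
          have h4 := le_max_right (pair (Sum.elim x' x'') (Sum.elim a b) - h (Sum.elim a b)) 0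
          linarith
    _ = 2 * avg (fun b => avg (fun a => max (pair (Sum.elim x' x'') (Sum.elim a b)
          - h (Sum.elim a b)) 0)) := avg_const_mul _ _
    _ ≤ 2 * θ := by linarith

lemma avg_sign_pair (v : κ → ℝ) : avg (fun a => ((SignType.sign (pair v a) : SignType) : ℝ)) = 0 := by
  apply avg_eq_zero_of_flipAll
  intro a
  rw [pair_flipAll]
  simp [Left.sign_neg]

lemma abs_signType_le (s : SignType) : |(s : ℝ)| ≤ 1 := by
  cases s <;> simp

/-- The two-point inequality for fibre volumes. -/
lemma fibre_two_point {m : ℕ} {B lam : ℝ} (hB : 0 ≤ B) (hlam : 0 < lam)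
    (hι : VolBound ι m B lam)
    (h : (κ ⊕ ι → Bool) → ℝ) (θ : ℝ) (x' y' : κ → ℝ) :
    volume {x'' : ι → ℝ | Sum.elim x' x'' ∈ slack h θ} *
      volume {x'' : ι → ℝ | Sum.elim y' x'' ∈ slack h θ} ≤
    (ENNReal.ofReal (B ^ Fintype.card ι * Real.exp ((avg h + 2 ^ (m + 1) * θ) / lam)) *
      ENNReal.ofReal (Real.exp (- avg (fun a => |pair (x' - y') a|) / (2 * lam)))) ^ 2 := by
  set s : (κ → Bool) → ℝ := fun a => ((SignType.sign (pair (x' - y') a) : SignType) : ℝ) with hs
  have hs1 : ∀ a, |s a| ≤ 1 := fun a => abs_signType_le _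
  have hs0 : avg s = 0 := avg_sign_pair _
  set H : (κ → Bool) → ℝ := fun a => avg (fun b => h (Sum.elim a b)) with hH
  have hHa : avg H = avg h := (avg_sumType h).symm
  have bound : ∀ (z : κ → ℝ) (w : (κ → Bool) → ℝ), (∀ a, 0 ≤ w a) → (∀ a, w a ≤ 2) → avg w = 1 →
      volume {x'' : ι → ℝ | Sum.elim z x'' ∈ slack h θ} ≤
      ENNReal.ofReal (B ^ Fintype.card ι *
        Real.exp ((avg (fun a => w a * (H a - pair z a)) + 2 ^ (m + 1) * θ) / lam)) := by
    intro z w hw0 hw2 hw1
    refine (measure_mono (fun x'' hx => fibre_subset h θ z w hw0 hw2 hw1 hx)).trans ?_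
    refine (hι _ _).trans (le_of_eq ?_)
    congr 3
    have e1 : avg (fun b => avg (fun a => w a * (h (Sum.elim a b) - pair z a)))
        = avg (fun a => w a * (H a - pair z a)) := by
      rw [← avg_comm]
      congr 1
      funext a
      rw [avg_const_mul, avg_sub, avg_const]
    rw [e1]
    ring
  have b1 := bound x' (fun a => 1 + s a) (fun a => by linarith [(abs_le.mp (hs1 a)).1])
    (fun a => by linarith [(abs_le.mp (hs1 a)).2]) (by rw [avg_add, avg_const, hs0, add_zero])
  have b2 := bound y' (fun a => 1 - s a) (fun a => by linarith [(abs_le.mp (hs1 a)).2])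
    (fun a => by linarith [(abs_le.mp (hs1 a)).1]) (by rw [avg_sub, avg_const, hs0, sub_zero])
  refine (mul_le_mul' b1 b2).trans (le_of_eq ?_)
  rw [← ENNReal.ofReal_mul (by positivity), ← ENNReal.ofReal_mul (by positivity),
    ← ENNReal.ofReal_pow (by positivity)]
  congr 1
  have esum : avg (fun a => (1 + s a) * (H a - pair x' a))
      + avg (fun a => (1 - s a) * (H a - pair y' a))
      = 2 * avg h - avg (fun a => |pair (x' - y') a|) := by
    rw [← avg_add, ← hHa, ← avg_const_mul, ← avg_sub]
    have : ∀ a, (1 + s a) * (H a - pair x' a) + (1 - s a) * (H a - pair y' a)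
        = (2 * H a - |pair (x' - y') a|) - (pair x' a + pair y' a) := by
      intro a
      have e : s a * (pair x' a - pair y' a) = |pair (x' - y') a| := by
        rw [← pair_sub]
        exact sign_mul_self _
      linear_combination -e
    simp only [this]
    rw [avg_sub, avg_add, avg_pair, avg_pair]
    ring
  set A1 := avg (fun a => (1 + s a) * (H a - pair x' a))
  set A2 := avg (fun a => (1 - s a) * (H a - pair y' a))
  set P := avg (fun a => |pair (x' - y') a|)
  set T : ℝ := 2 ^ (m + 1) * θ
  set c := B ^ Fintype.card ι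
  have : c * Real.exp ((A1 + T) / lam) * (c * Real.exp ((A2 + T) / lam))
      = c ^ 2 * Real.exp ((A1 + T) / lam + (A2 + T) / lam) := by
    rw [Real.exp_add]; ring
  rw [this]
  have : (c * Real.exp ((avg h + T) / lam) * Real.exp (-P / (2 * lam))) ^ 2
      = c ^ 2 * Real.exp ((avg h + T) / lam + (avg h + T) / lam + (-P / (2 * lam) + -P / (2 * lam))) := by
    rw [Real.exp_add, Real.exp_add, Real.exp_add]; ring
  rw [this]
  congr 2
  have : A1 + A2 = 2 * avg h - P := esum
  field_simp
  linarith

/-- Induction step of the volume lemma: adding one block. -/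
lemma volBound_succ {m : ℕ} {B lam : ℝ} (hB : 0 ≤ B) (hlam : 0 < lam)
    (hι : VolBound ι m B lam)
    (hκ : ∫⁻ x : κ → ℝ, ENNReal.ofReal (Real.exp (- avg (fun a => |pair x a|) / (2 * lam)))
      ≤ ENNReal.ofReal (B ^ Fintype.card κ)) :
    VolBound (κ ⊕ ι) (m + 1) B lam := by
  intro h θ
  have hmeas : MeasurableSet (slack h θ) := (isClosed_slack h θ).measurableSet
  have e1 : volume (slack h θ) = volume ((MeasurableEquiv.sumPiEquivProdPi
      (fun _ : κ ⊕ ι => ℝ)).symm ⁻¹' slack h θ) :=
    ((volume_measurePreserving_sumPiEquivProdPi_symm (fun _ : κ ⊕ ι => ℝ)).measure_preimage_equiv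
      _).symm
  have hmeas2 : MeasurableSet ((MeasurableEquiv.sumPiEquivProdPi
      (fun _ : κ ⊕ ι => ℝ)).symm ⁻¹' slack h θ) :=
    (MeasurableEquiv.measurable _) hmeas
  rw [e1, Measure.volume_eq_prod, Measure.prod_apply hmeas2]
  have e2 : ∀ x' : κ → ℝ, volume (Prod.mk x' ⁻¹' ((MeasurableEquiv.sumPiEquivProdPi
      (fun _ : κ ⊕ ι => ℝ)).symm ⁻¹' slack h θ)) =
      volume {x'' : ι → ℝ | Sum.elim x' x'' ∈ slack h θ} := by
    intro x'
    congr 1
  simp only [e2]
  refine (lintegral_le_of_two_point volume _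
    (fun x => ENNReal.ofReal (Real.exp (- avg (fun a => |pair x a|) / (2 * lam))))
    (ENNReal.ofReal (B ^ Fintype.card ι * Real.exp ((avg h + 2 ^ (m + 1) * θ) / lam)))
    ENNReal.ofReal_ne_top ?_ (fun x' y' => fibre_two_point hB hlam hι h θ x' y')).trans ?_
  · have : avg (fun a : κ → Bool => |pair (0 : κ → ℝ) a|) = 0 := by
      simp [pair, avg]
    rw [this]
    simp
  · calc _ ≤ ENNReal.ofReal (B ^ Fintype.card ι * Real.exp ((avg h + 2 ^ (m + 1) * θ) / lam)) *
          ENNReal.ofReal (B ^ Fintype.card κ) := by gcongr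
      _ = _ := by
        rw [← ENNReal.ofReal_mul (by positivity)]
        congr 1
        rw [Fintype.card_sum, pow_add]
        ring

/-- Re-indexing the volume bound. -/
lemma VolBound.congr {m : ℕ} {B lam : ℝ} (e : ι ≃ κ) (hι : VolBound ι m B lam) :
    VolBound κ m B lam := by
  intro h θ
  have hpre : (MeasurableEquiv.piCongrLeft (fun _ : κ => ℝ) e) ⁻¹' slack h θ
      = slack (fun ε : ι → Bool => h (ε ∘ e.symm)) θ := by
    ext x
    simp only [Set.mem_preimage, slack, Set.mem_ofPred_eq]
    rw [avg_equiv e]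
    have : ∀ ε : ι → Bool, pair (MeasurableEquiv.piCongrLeft (fun _ : κ => ℝ) e x) (ε ∘ e.symm)
        = pair x ε := by
      intro ε
      rw [pair_equiv]
      congr 1
      funext i
      simp only [Function.comp_apply]
      exact Equiv.piCongrLeft_apply_apply (P := fun _ : κ => ℝ) e x i
    simp only [this]
  have e1 : volume (slack h θ) = volume ((MeasurableEquiv.piCongrLeft (fun _ : κ => ℝ) e) ⁻¹'
      slack h θ) :=
    ((volume_measurePreserving_piCongrLeft (fun _ : κ => ℝ) e).measure_preimage_equiv _).symm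
  rw [e1, hpre]
  refine (hι _ _).trans (le_of_eq ?_)
  rw [Fintype.card_congr e, avg_equiv e h]

/-- The exponential integral of a block. -/
lemma block_integral (lam : ℝ) (hlam : 0 < lam) :
    ∫⁻ x : κ → ℝ, ENNReal.ofReal (Real.exp (- avg (fun a => |pair x a|) / (2 * lam)))
      ≤ ENNReal.ofReal ((4 * lam * √(3 * Fintype.card κ)) ^ Fintype.card κ) := by
  rcases isEmpty_or_nonempty κ with hk | hk
  · have : avg (fun a : κ → Bool => |pair (0 : κ → ℝ) a|) = 0 := by
      simp [pair, avg]
    calc ∫⁻ x : κ → ℝ, ENNReal.ofReal (Real.exp (- avg (fun a => |pair x a|) / (2 * lam)))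
        ≤ ∫⁻ x : κ → ℝ, 1 := by
          apply lintegral_mono
          intro x
          rw [← ENNReal.ofReal_one]
          apply ENNReal.ofReal_le_ofReal
          rw [Real.exp_le_one_iff]
          have : 0 ≤ avg (fun a => |pair x a|) := avg_nonneg fun a => abs_nonneg _
          rw [neg_div]
          have : 0 ≤ avg (fun a => |pair x a|) / (2 * lam) := by positivity
          linarith
      _ = 1 := by
        rw [lintegral_one, volume_pi, Measure.pi_univ]
        simp
      _ ≤ _ := by simp
  have hcard : (0 : ℝ) < Fintype.card κ := by exact_mod_cast Fintype.card_pos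
  set c : ℝ := 2 * lam * √(3 * Fintype.card κ) with hc
  have hcpos : 0 < c := by positivity
  have hval : ∫ t : ℝ, Real.exp (-|t| / c) = 2 * c := by
    have h2 := integral_comp_abs (f := fun s => Real.exp (-s / c))
    rw [h2]
    have : ∫ t in Set.Ioi (0:ℝ), Real.exp (-t / c) = c := by
      have := integral_exp_mul_Ioi (a := -(1 / c)) (by simp; exact hcpos) 0
      simp only [mul_zero, Real.exp_zero] at this
      calc ∫ t in Set.Ioi (0:ℝ), Real.exp (-t / c) = ∫ t in Set.Ioi (0:ℝ), Real.exp (-(1/c) * t) := by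
            congr 1; funext t; congr 1; ring
        _ = c := by rw [this]; field_simp
    rw [this]
  have hint : Integrable (fun t : ℝ => Real.exp (-|t| / c)) := by
    by_contra hni
    rw [integral_undef hni] at hval
    linarith
  calc ∫⁻ x : κ → ℝ, ENNReal.ofReal (Real.exp (- avg (fun a => |pair x a|) / (2 * lam)))
      ≤ ∫⁻ x : κ → ℝ, ENNReal.ofReal (∏ i, Real.exp (-|x i| / c)) := by
        apply lintegral_mono
        intro x
        apply ENNReal.ofReal_le_ofReal
        rw [← Real.exp_sum]
        apply Real.exp_le_exp.mpr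
        have h1 := khintchine_l1 x
        rw [← sum_div, sum_neg_distrib, neg_div, neg_div]
        apply neg_le_neg
        rw [div_le_div_iff₀ hcpos (by positivity)]
        have h2 : 0 < √(3 * (Fintype.card κ : ℝ)) := by positivity
        calc (∑ i, |x i|) * (2 * lam) ≤ (√(3 * Fintype.card κ) * avg (fun ε => |pair x ε|)) * (2 * lam) := by
              gcongr
          _ = _ := by rw [hc]; ring
    _ = ENNReal.ofReal (∫ x : κ → ℝ, ∏ i, Real.exp (-|x i| / c)) := by
        rw [ofReal_integral_eq_lintegral_ofReal]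
        · exact Integrable.fintype_prod (fun _ => hint)
        · exact Filter.Eventually.of_forall fun x => prod_nonneg fun i _ => (Real.exp_pos _).le
    _ = ENNReal.ofReal ((2 * c) ^ Fintype.card κ) := by
        rw [integral_fintype_prod_volume_eq_pow (fun t : ℝ => Real.exp (-|t| / c)), hval]
    _ = _ := by rw [hc]; congr 2; ring

/-- The volume lemma for `m` blocks of size `k`. -/
theorem volBound_blocks (k m : ℕ) (lam : ℝ) (hlam : 0 < lam) :
    VolBound (Fin (m * k)) m (4 * lam * √(3 * k)) lam := by
  induction m with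
  | zero =>
    have : IsEmpty (Fin (0 * k)) := by rw [Nat.zero_mul]; infer_instance
    exact volBound_zero _ _ hlam
  | succ m ih =>
    have h1 : VolBound (Fin k ⊕ Fin (m * k)) (m + 1) (4 * lam * √(3 * k)) lam := by
      apply volBound_succ (by positivity) hlam ih
      simpa using block_integral (κ := Fin k) lam hlam
    exact h1.congr (finSumFinEquiv.trans (finCongr (by ring)))

end Pool.Agent.H35
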